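import Mathlib
import Pool.Agent.Y760.RT.Se

set_option autoImplicit false

/-!
# Integers close to finite sums of characters
-/

namespace Pool.Agent.R473.DW

open Filter Topology Pool.Agent.TH932.Abs Pool.Agent.TH932.Germs Pool.Agent.TH932.Chi
open Pool.Agent.TH796.AL

variable {m : ℕ} (B : Base m) {L : ℕ → ℝ} (hL : Tendsto L atTop atTop)

/-- independence of the characters -/
lemma li {ι : Type} [Fintype ι] (γ : ι → Fin m → ℝ) (hγ : Function.Injective γ)
    (c : ι → KK L hL) (h : ∑ i, (c i : GG) * ch B hL (γ i) = 0) : ∀ i, c i = 0 := by
  classical
  have h1 := su_thm m B L hL (∑ i, AddMonoidAlgebra.single (γ i) (c i)) (by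
    rw [map_sum, ← h]
    exact Finset.sum_congr rfl fun i _ => ev_single hL _ _)
  intro i
  have h2 : (∑ i, AddMonoidAlgebra.single (γ i) (c i) : Rg m hL).coeff (γ i) = c i := by
    rw [AddMonoidAlgebra.coeff_sum, Finsupp.finsetSum_apply, Finset.sum_eq_single i]
    · rw [AddMonoidAlgebra.coeff_single, Finsupp.single_eq_same]
    · intro j _ hj
      rw [AddMonoidAlgebra.coeff_single, Finsupp.single_eq_of_ne]
      exact fun h => hj (hγ h.symm)
    · intro h
      exact absurd (Finset.mem_univ i) h
  rw [← h2, h1]
  rfl

lemma pi_sum {ι : Type} [Fintype ι] [DecidableEq ι] (z : ι → GG) (i : ι) :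
    ∑ j, (((if j = i then 1 else 0 : KK L hL)) : GG) * z j = z i := by
  rw [Finset.sum_eq_single i]
  · rw [if_pos rfl]
    push_cast
    rw [one_mul]
  · intro j _ hj
    rw [if_neg hj]
    push_cast
    rw [zero_mul]
  · intro h
    exact absurd (Finset.mem_univ i) h

lemma ev_sum' (f : Rg m hL) : ev B hL f =
    ∑ i : f.coeff.support, ((f.coeff i : KK L hL) : GG) * ch B hL i := by
  rw [ev_sum, ← Finset.sum_coe_sort]

/-- a finite sum of characters is not much smaller than its terms, at every place -/
lemma rep (v : Option (Fin m)) (f : Rg m hL) {x : ℝ} (hx : ev B hL f ∈ Sv B L v x)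
    {g : Fin m → ℝ} (hg : f.coeff g ≠ 0) : x ≤ lv B v g := by
  classical
  set T := f.coeff.support with hT
  have hgT : g ∈ T := Finsupp.mem_support_iff.2 hg
  set g0 : T := ⟨g, hgT⟩ with hg0
  have hf : ev B hL f = ∑ i : T, ((f.coeff i : KK L hL) : GG) * ch B hL i := ev_sum' B hL f
  have hfg : ((f.coeff g : KK L hL) : GG) ≠ 0 := by
    intro h0
    exact hg (Subtype.ext h0)
  set z : Option (Fin m) → T → GG := fun u i => if u = v ∧ i = g0 then ev B hL f else ch B hL i
    with hz
  set w : Option (Fin m) → T → ℝ := fun u i => if u = v ∧ i = g0 then x else lv B u i with hw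
  have hli : ∀ u, ∀ c : T → KK L hL, ∑ i, (c i : GG) * z u i = 0 → ∀ i, c i = 0 := by
    intro u c hc
    by_cases huv : u = v
    · have e1 : ∑ i, (c i : GG) * z u i = ∑ i : T, ((c g0 * f.coeff i +
          (if i = g0 then 0 else c i) : KK L hL) : GG) * ch B hL i := by
        have e2 : ∀ i : T, (c i : GG) * z u i = (if i = g0 then (c g0 : GG) * ev B hL f else 0) +
            (((if i = g0 then 0 else c i) : KK L hL) : GG) * ch B hL i := by
          intro i
          rw [hz]
          simp only []
          by_cases hi : i = g0
          · rw [if_pos ⟨huv, hi⟩, if_pos hi, if_pos hi, hi]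
            simp
          · rw [if_neg (fun h => hi h.2), if_neg hi, if_neg hi, zero_add]
        rw [Finset.sum_congr rfl fun i _ => e2 i, Finset.sum_add_distrib,
          Finset.sum_ite_eq' Finset.univ g0, if_pos (Finset.mem_univ _), hf, Finset.mul_sum,
          ← Finset.sum_add_distrib]
        refine Finset.sum_congr rfl fun i _ => ?_
        push_cast
        ring
      rw [e1] at hc
      have h1 := li B hL (fun i : T => (i : Fin m → ℝ)) Subtype.val_injective _ hc
      have h2 := h1 g0
      rw [if_pos rfl, add_zero] at h2
      have h3 : c g0 = 0 := (mul_eq_zero.1 h2).resolve_right hg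
      intro i
      by_cases hi : i = g0
      · rw [hi]; exact h3
      · have h4 := h1 i
        rw [if_neg hi, h3, zero_mul, zero_add] at h4
        exact h4
    · refine li B hL (fun i : T => (i : Fin m → ℝ)) Subtype.val_injective c ?_
      rw [← hc]
      refine Finset.sum_congr rfl fun i _ => ?_
      rw [hz]
      simp only []
      rw [if_neg (fun h => huv h.1)]
  have hz0 : ∀ i : T, ∃ c : T → KK L hL, ch B hL i = ∑ j, (c j : GG) * z none j := by
    intro i
    by_cases hv : (none : Option (Fin m)) = v
    · by_cases hi : i = g0
      · refine ⟨fun j => if j = g0 then (f.coeff g)⁻¹ else -(f.coeff g)⁻¹ * f.coeff j, ?_⟩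
        have e1 : ∀ j : T, (((if j = g0 then (f.coeff g)⁻¹ else
            -(f.coeff g)⁻¹ * f.coeff j : KK L hL)) : GG) * z none j =
            (if j = g0 then ((f.coeff g : KK L hL) : GG)⁻¹ * ev B hL f + ch B hL g else 0) -
            ((f.coeff g : KK L hL) : GG)⁻¹ * (((f.coeff j : KK L hL) : GG) * ch B hL j) := by
          intro j
          rw [hz]
          simp only []
          by_cases hj : j = g0
          · rw [if_pos hj, if_pos ⟨hv, hj⟩, if_pos hj, hj]
            push_cast
            rw [hg0]
            simp only []
            field_simp
            ring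
          · rw [if_neg hj, if_neg (fun h => hj h.2), if_neg hj]
            push_cast
            ring
        rw [Finset.sum_congr rfl fun j _ => e1 j, Finset.sum_sub_distrib,
          Finset.sum_ite_eq' Finset.univ g0, if_pos (Finset.mem_univ _), ← Finset.mul_sum, ← hf, hi]
        rw [hg0]
        ring
      · refine ⟨fun j => if j = i then 1 else 0, ?_⟩
        rw [pi_sum hL (z none) i, hz]
        simp only []
        rw [if_neg (fun h => hi h.2)]
    · refine ⟨fun j => if j = i then 1 else 0, ?_⟩
      rw [pi_sum hL (z none) i, hz]
      simp only []
      rw [if_neg (fun h => hv h.1)]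
  have hspan : ∀ u i, ∃ c : T → KK L hL, z u i = ∑ j, (c j : GG) * z none j := by
    choose c0 hc0 using hz0
    intro u i
    by_cases hui : u = v ∧ i = g0
    · refine ⟨fun j => ∑ k : T, f.coeff k * c0 k j, ?_⟩
      have e1 : z u i = ev B hL f := by
        rw [hz]
        simp only []
        rw [if_pos hui]
      rw [e1, hf]
      have e2 : ∀ j : T, ((∑ k : T, f.coeff k * c0 k j : KK L hL) : GG) * z none j =
          ∑ k : T, ((f.coeff k : KK L hL) : GG) * ((c0 k j : GG) * z none j) := by
        intro j
        push_cast
        rw [Finset.sum_mul]
        exact Finset.sum_congr rfl fun k _ => by ring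
      rw [Finset.sum_congr rfl fun j _ => e2 j, Finset.sum_comm]
      refine Finset.sum_congr rfl fun k _ => ?_
      rw [← Finset.mul_sum, ← hc0]
    · obtain ⟨c, hc⟩ : ∃ c : T → KK L hL, ch B hL i = ∑ j, (c j : GG) * z none j := ⟨_, hc0 i⟩
      refine ⟨c, ?_⟩
      rw [← hc, hz]
      simp only []
      rw [if_neg hui]
  have hmem : ∀ u i, z u i ∈ Sv B L u (w u i) := by
    intro u i
    rw [hz, hw]
    simp only []
    split_ifs with h
    · rw [h.1]; exact hx
    · exact ch_mem hL u i
  have hS : ∀ i, Sint B L (z none i) := by
    intro i
    rw [hz]
    simp only []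
    split_ifs
    · exact ev_sint hL f
    · exact ch_sint hL _
  have h := movq_thm m B L hL T inferInstance z w hli hspan hmem hS
  have e1 : ∑ u, ∑ i, w u i = x - lv B v g := by
    have e2 : ∀ u i, w u i = lv B u i + (if u = v then (if i = g0 then x - lv B v g else 0) else 0)
        := by
      intro u i
      rw [hw]
      simp only []
      by_cases h1 : u = v
      · by_cases h2 : i = g0
        · rw [if_pos ⟨h1, h2⟩, if_pos h1, if_pos h2, h1, h2, hg0]
          ring
        · rw [if_neg (fun h => h2 h.2), if_pos h1, if_neg h2, add_zero]
      · rw [if_neg (fun h => h1 h.1), if_neg h1, add_zero]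
    simp only [e2, Finset.sum_add_distrib]
    rw [Finset.sum_comm]
    simp only [lv_sum, Finset.sum_const_zero, zero_add]
    have e3 : ∀ u : Option (Fin m), ∑ i : T, (if u = v then (if i = g0 then x - lv B v g else 0)
        else 0) = if u = v then x - lv B v g else 0 := by
      intro u
      split_ifs
      · rw [Finset.sum_ite_eq' Finset.univ g0, if_pos (Finset.mem_univ _)]
      · simp
    rw [Finset.sum_congr rfl fun u _ => e3 u, Finset.sum_ite_eq' Finset.univ v,
      if_pos (Finset.mem_univ _)]
  rw [e1] at h
  linarith

/-- **an integer close to a finite sum of characters**: the large terms are integral -/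
theorem key (f : Rg m hL) (p : GG) (hp : ∀ i, p ∈ Sv B L (some i) 0) (hpS : Sint B L p) {x : ℝ}
    (hx : 0 < x) (h : ev B hL f - p ∈ Sv B L none x) {g : Fin m → ℝ} (hg : f.coeff g ≠ 0)
    (hgx : lv B none g < x) : ∀ i, 0 ≤ g i := by
  classical
  -- the integer is a finite sum of characters
  obtain ⟨q, hq⟩ : ∃ q : Rg m hL, ev B hL q = p := by
    by_contra hno
    push Not at hno
    set T := f.coeff.support with hT
    have hf : ev B hL f = ∑ i : T, ((f.coeff i : KK L hL) : GG) * ch B hL i := ev_sum' B hL f
    set z : Option (Fin m) → Option T → GG := fun u o => match o with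
      | none => if u = none then ev B hL f - p else p
      | some i => ch B hL i with hz
    set w : Option (Fin m) → Option T → ℝ := fun u o => match o with
      | none => if u = none then x else 0
      | some i => lv B u i with hw
    have hevc : ∀ c : T → KK L hL, ev B hL (∑ i : T, AddMonoidAlgebra.single (i : Fin m → ℝ) (c i))
        = ∑ i : T, (c i : GG) * ch B hL i := by
      intro c
      rw [map_sum]
      exact Finset.sum_congr rfl fun i _ => ev_single hL _ _
    have hli : ∀ u, ∀ c : Option T → KK L hL, ∑ i, (c i : GG) * z u i = 0 → ∀ i, c i = 0 := by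
      intro u c hc
      rw [Fintype.sum_option] at hc
      have h0 : c none = 0 := by
        by_contra hne
        have hne' : ((c none : KK L hL) : GG) ≠ 0 := fun h0 => hne (Subtype.ext h0)
        have e1 : z u none = -∑ i : T, (((c none)⁻¹ * c (some i) : KK L hL) : GG) * ch B hL i := by
          have e2 : ∑ i : T, (((c none)⁻¹ * c (some i) : KK L hL) : GG) * ch B hL i =
              ((c none : KK L hL) : GG)⁻¹ * ∑ i : T, (c (some i) : GG) * z u (some i) := by
            rw [Finset.mul_sum]
            refine Finset.sum_congr rfl fun i _ => ?_
            rw [hz]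
            simp only []
            push_cast
            ring
          rw [e2]
          have e3 : ∑ i : T, (c (some i) : GG) * z u (some i) = -((c none : GG) * z u none) :=
            eq_neg_of_add_eq_zero_right hc
          rw [e3]
          field_simp
        by_cases hu : u = none
        · have e4 : z u none = ev B hL f - p := by
            rw [hz]
            simp only []
            rw [if_pos hu]
          refine hno (f + ∑ i : T, AddMonoidAlgebra.single (i : Fin m → ℝ)
            ((c none)⁻¹ * c (some i))) ?_
          rw [map_add, hevc fun i => (c none)⁻¹ * c (some i)]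
          rw [e4] at e1
          linear_combination e1
        · have e4 : z u none = p := by
            rw [hz]
            simp only []
            rw [if_neg hu]
          refine hno (-∑ i : T, AddMonoidAlgebra.single (i : Fin m → ℝ)
            ((c none)⁻¹ * c (some i))) ?_
          rw [map_neg, hevc fun i => (c none)⁻¹ * c (some i), ← e4, e1]
      rw [h0] at hc
      have h1 := li B hL (fun i : T => (i : Fin m → ℝ)) Subtype.val_injective
        (fun i => c (some i)) (by
          rw [← hc]
          push_cast
          rw [zero_mul, zero_add])
      intro o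
      cases o with
      | none => exact h0
      | some i => exact h1 i
    have hspan : ∀ u o, ∃ c : Option T → KK L hL, z u o = ∑ j, (c j : GG) * z none j := by
      intro u o
      cases o with
      | none =>
        by_cases hu : u = none
        · refine ⟨fun j => match j with
            | none => 1
            | some _ => 0, ?_⟩
          rw [Fintype.sum_option]
          simp only []
          push_cast
          simp only [zero_mul, Finset.sum_const_zero, add_zero, one_mul]
          rw [hu]
        · refine ⟨fun j => match j with
            | none => -1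
            | some i => f.coeff i, ?_⟩
          rw [Fintype.sum_option, hz]
          simp only []
          push_cast
          rw [if_neg hu, ← hf]
          simp
      | some i =>
        refine ⟨fun j => match j with
          | none => 0
          | some j => if j = i then 1 else 0, ?_⟩
        rw [Fintype.sum_option]
        simp only []
        rw [pi_sum hL (fun j => z none (some j)) i]
        push_cast
        rw [zero_mul, zero_add]
    have hmem : ∀ u o, z u o ∈ Sv B L u (w u o) := by
      intro u o
      cases o with
      | none =>
        cases u with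
        | none =>
          simpa [hz, hw] using h
        | some u =>
          simpa [hz, hw] using hp u
      | some i => exact ch_mem hL u i
    have hS : ∀ o, Sint B L (z none o) := by
      intro o
      cases o with
      | none =>
        have e0 : z none none = ev B hL f - p := by simp [hz]
        have e1 : ev B hL f - p = ev B hL f + ((-1 : KK L hL) : GG) * p := by
          push_cast
          ring
        rw [e0, e1]
        exact Sint.add hL (ev_sint hL f) (Sint.mul hL (Sint.alg hL _) hpS)
      | some i => exact ch_sint hL _
    have h2 := movq_thm m B L hL (Option T) inferInstance z w hli hspan hmem hS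
    have e1 : ∑ u, ∑ o, w u o = x := by
      have e2 : ∀ u, ∑ o, w u o = (if u = none then x else 0) + ∑ i : T, lv B u i := by
        intro u
        rw [Fintype.sum_option]
      simp only [e2, Finset.sum_add_distrib]
      rw [Finset.sum_ite_eq' Finset.univ none, if_pos (Finset.mem_univ _), Finset.sum_comm]
      simp only [lv_sum, Finset.sum_const_zero, add_zero]
    rw [e1] at h2
    linarith
  -- the exponents of the integer are nonnegative
  have h1 : ∀ g', q.coeff g' ≠ 0 → ∀ i, 0 ≤ g' i := by
    intro g' hg' i
    have h2 := rep B hL (some i) q (x := 0) (by rw [hq]; exact hp i) hg'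
    have h3 : lv B (some i) g' = g' i * Real.log (B.P i) := rfl
    rw [h3] at h2
    exact nonneg_of_mul_nonneg_left h2 (B.log_pos i)
  -- the difference has small terms only
  have h2 : (f - q).coeff g = 0 := by
    by_contra hne
    have h3 := rep B hL none (f - q) (x := x) (by rw [map_sub, hq]; exact h) hne
    linarith
  rw [AddMonoidAlgebra.coeff_sub, Finsupp.sub_apply, sub_eq_zero] at h2
  exact h1 g (by rw [← h2]; exact hg)

end Pool.Agent.R473.DW
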