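import Mathlib
import Pool.Agent.R473.DW.Key
import Pool.Agent.Y760.RT.Ser

set_option autoImplicit false

/-!
# Linear forms in values of Dirichlet series at large integers whose coefficients are sums of
few `S`-units
-/

namespace Pool.Agent.R473.DW

open Filter Topology Pool.Agent.TH932.Abs Pool.Agent.TH932.Germs Pool.Agent.TH932.Chi
open Pool.Agent.TH796.AL Pool.Agent.Y760.ZG Pool.Agent.Y760.RT Pool.Agent.TH932.Scale

/-- sums of `R` terms `a ∏ p ^ k`, `p ∈ S`, with `|a| ≤ R` and `|k| ≤ X` -/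
def Sm (S : Finset ℕ) (R : ℕ) (X : ℝ) (D : ℚ) : Prop :=
  ∃ (a : Fin R → ℤ) (k : Fin R → ℕ → ℤ), (∀ r, |a r| ≤ R) ∧ (∀ r, ∀ p ∈ S, |(k r p : ℝ)| ≤ X) ∧
    D = ∑ r, (a r : ℚ) * ∏ p ∈ S, (p : ℚ) ^ k r p

/-- the elements of `S` are among the first `m` primes -/
def Sub (S : Finset ℕ) (m : ℕ) : Prop := ∀ p ∈ S, p.Prime ∧ p < pr m

lemma image_S {S : Finset ℕ} {m : ℕ} (hS : Sub S m) :
    ((Finset.univ.filter fun i : Fin m => pr i ∈ S).image fun i : Fin m => pr i) = S := by
  classical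
  ext p
  simp only [Finset.mem_image, Finset.mem_filter, Finset.mem_univ, true_and]
  constructor
  · rintro ⟨i, hi, rfl⟩
    exact hi
  · intro hp
    obtain ⟨i, hi⟩ := exists_idx (hS p hp).1 (hS p hp).2
    exact ⟨i, by rw [hi]; exact hp, hi⟩

lemma prod_S {S : Finset ℕ} {m : ℕ} (hS : Sub S m) (f : ℕ → ℚ) :
    ∏ i : Fin m, (if pr i ∈ S then f (pr i) else 1) = ∏ p ∈ S, f p := by
  classical
  conv_rhs => rw [← image_S hS]
  rw [Finset.prod_image (fun a _ b _ h => Fin.ext (pr_inj h)), Finset.prod_filter]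

lemma sum_S {S : Finset ℕ} {m : ℕ} (hS : Sub S m) (f : ℕ → ℝ) :
    ∑ i : Fin m, (if pr i ∈ S then f (pr i) else 0) = ∑ p ∈ S, f p := by
  classical
  conv_rhs => rw [← image_S hS]
  rw [Finset.sum_image (fun a _ b _ h => Fin.ext (pr_inj h)), Finset.sum_filter]

lemma uni_fin {α : Type} [Finite α] (f : ℕ → α) : ∃ a, ∀ᶠ n in (UU : Filter ℕ), f n = a := by
  obtain ⟨a, ha⟩ := Ultrafilter.eq_pure_of_finite (UU.map f)
  refine ⟨a, ?_⟩
  have h1 : ({a} : Set α) ∈ UU.map f := by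
    rw [ha]
    exact Ultrafilter.mem_pure.2 rfl
  exact h1

lemma uni_int {D : ℕ → ℤ} {c : ℤ} (h : ∀ n, |D n| ≤ c) :
    ∃ d, ∀ᶠ n in (UU : Filter ℕ), D n = d := by
  have h0 : Set.Icc (-c) c ∈ UU.map D := by
    show ∀ᶠ n in (UU : Filter ℕ), D n ∈ Set.Icc (-c) c
    exact Eventually.of_forall fun n => abs_le.1 (h n)
  obtain ⟨a, _, ha⟩ := Ultrafilter.eq_pure_of_finite_mem (Set.finite_Icc (-c) c) h0
  refine ⟨a, ?_⟩
  have h1 : ({a} : Set ℤ) ∈ UU.map D := by
    rw [ha]
    exact Ultrafilter.mem_pure.2 rfl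
  exact h1

lemma gmi (c : ℤ) : gm (fun _ => (c : ℚ)) = (c : GG) := rfl

lemma gm_s {ι : Type*} (s : Finset ι) (f : ι → ℕ → ℚ) :
    ∑ i ∈ s, gm (f i) = gm (fun m => ∑ i ∈ s, f i m) := by
  classical
  induction s using Finset.induction_on with
  | empty => simp [gm_zero]
  | insert a s ha ih =>
    rw [Finset.sum_insert ha, ih, gm_add]
    congr 1
    funext m
    rw [Finset.sum_insert ha]

section

variable {L : ℕ → ℝ} (hL : Tendsto L atTop atTop)

include hL in
/-- limits of exponents -/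
lemma exists_lim {a : ℕ → ℝ} {A : ℝ} (hA : 0 ≤ A) (h : ∀ n, |a n| ≤ A * L n) :
    ∃ t, |t| ≤ A ∧ near L a t := by
  have hLA : near L (fun n => A * L n) A := by
    intro ε hε
    filter_upwards [L_nonneg hL] with n hn
    rw [sub_self, abs_zero]
    positivity
  obtain ⟨t, h0, h1, h2⟩ := exists_st (L := L) hL (a := fun n => a n + A * L n) (A := 2 * A) (by
    refine Eventually.of_forall fun n => ?_
    have := abs_le.1 (h n)
    constructor <;> linarith [this.1, this.2])
  refine ⟨t - A, abs_le.2 ⟨by linarith, by linarith⟩, ?_⟩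
  refine (h2.sub hLA).congr (Eventually.of_forall fun n => ?_)
  ring

lemma lv_none {m : ℕ} (B : Base m) (g : Fin m → ℝ) :
    lv B none g = -∑ i, g i * Real.log (B.P i) := rfl

/-- sums of few `S`-units as finite sums of characters -/
lemma exists_P {m : ℕ} {S : Finset ℕ} (hS : Sub S m) (R : ℕ) {C : ℝ} (hC : 0 ≤ C) (D : ℕ → ℚ)
    (hD : ∀ n, Sm S R (C * L n) (D n)) : ∃ P : Rg m hL, ev (bs m) hL P = gm D ∧
      ∀ g, P.coeff g ≠ 0 → (∀ i : Fin m, pr i ∉ S → g i = 0) ∧
        |lv (bs m) none g| ≤ C * ∑ p ∈ S, Real.log p := by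
  classical
  choose a k ha hk hD using hD
  have h1 : ∀ r, ∃ d : ℤ, ∀ᶠ n in (UU : Filter ℕ), a n r = d := fun r =>
    uni_int fun n => ha n r
  choose d hd using h1
  have h2 : ∀ (r : Fin R) (i : Fin m), ∃ t : ℝ, (pr i ∉ S → t = 0) ∧ |t| ≤ (if pr i ∈ S then C
      else 0) ∧ near L (fun n => (((if pr i ∈ S then k n r (pr i) else 0) : ℤ) : ℝ)) t := by
    intro r i
    by_cases hi : pr i ∈ S
    · obtain ⟨t, h1, h2⟩ := exists_lim hL hC (a := fun n => (k n r (pr i) : ℝ))
        fun n => hk n r _ hi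
      exact ⟨t, fun h => absurd hi h, by rwa [if_pos hi], by simpa [hi] using h2⟩
    · exact ⟨0, fun _ => rfl, by rw [if_neg hi, abs_zero], by
        simpa [hi] using near_const hL 0⟩
  choose t ht1 ht2 ht3 using h2
  have h3 : ∀ r : Fin R, ∃ κ : KK L hL, κ ≠ 0 ∧ gm (fun n => ∏ p ∈ S, (p : ℚ) ^ k n r p) =
      (κ : GG) * ch (bs m) hL (t r) := by
    intro r
    obtain ⟨κ, h0, h1⟩ := exists_const (B := bs m) hL (t r)
      (fun n i => if pr i ∈ S then k n r (pr i) else 0) (fun i => ht3 r i)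
    refine ⟨κ, h0, ?_⟩
    rw [← h1]
    congr 1
    funext n
    rw [← prod_S hS (fun p => (p : ℚ) ^ k n r p)]
    refine Finset.prod_congr rfl fun i _ => ?_
    show _ = (pr i : ℚ) ^ _
    split_ifs
    · rfl
    · rw [zpow_zero]
  choose κ hκ0 hκ using h3
  refine ⟨∑ r, AddMonoidAlgebra.single (t r) ((d r : KK L hL) * κ r), ?_, ?_⟩
  · rw [map_sum]
    have e1 : ∀ r, ev (bs m) hL (AddMonoidAlgebra.single (t r) ((d r : KK L hL) * κ r)) =
        gm (fun n => (a n r : ℚ) * ∏ p ∈ S, (p : ℚ) ^ k n r p) := by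
      intro r
      rw [ev_single, ← gm_mul, hκ]
      have e2 : gm (fun n => (a n r : ℚ)) = ((d r : ℤ) : GG) := by
        rw [← gmi, gm_eq]
        filter_upwards [hd r] with n hn
        rw [hn]
      rw [e2]
      push_cast
      ring
    rw [Finset.sum_congr rfl fun r _ => e1 r, gm_s]
    congr 1
    funext n
    exact (hD n).symm
  · intro g hg
    have h4 : ∃ r, t r = g := by
      by_contra hno
      push Not at hno
      apply hg
      rw [AddMonoidAlgebra.coeff_sum, Finsupp.finsetSum_apply]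
      refine Finset.sum_eq_zero fun r _ => ?_
      rw [AddMonoidAlgebra.coeff_single, Finsupp.single_eq_of_ne]
      exact fun h => hno r h.symm
    obtain ⟨r, rfl⟩ := h4
    refine ⟨fun i hi => ht1 r i hi, ?_⟩
    rw [lv_none, abs_neg]
    have e1 : C * ∑ p ∈ S, Real.log p = ∑ i : Fin m, (if pr i ∈ S then C * Real.log (pr i)
        else 0) := by
      rw [sum_S hS (fun p => C * Real.log p), Finset.mul_sum]
    rw [e1]
    refine (Finset.abs_sum_le_sum_abs _ _).trans (Finset.sum_le_sum fun i _ => ?_)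
    have hl : 0 < Real.log (pr i) := (bs m).log_pos i
    show |t r i * Real.log (pr i)| ≤ _
    rw [abs_mul, abs_of_pos hl]
    have h5 := ht2 r i
    split_ifs at h5 ⊢ with h6
    · gcongr
    · nlinarith

include hL in
/-- integer germs -/
lemma int_fin {m : ℕ} (B : Base m) (z : ℕ → ℤ) (v : Fin m) :
    gm (fun n => (z n : ℚ)) ∈ Sv B L (some v) 0 := by
  unfold Sv
  rw [mem_SS]
  intro ε hε
  filter_upwards [L_nonneg hL] with n hn
  refine ⟨1, 1, z n, 0, one_ne_zero, ?_, Submonoid.one_mem _, by simp, ?_⟩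
  · simp only [Int.cast_one, abs_one]
    exact Real.one_le_exp (by positivity)
  · simp only [Int.cast_zero, zero_mul]
    nlinarith

include hL in
lemma int_sint {m : ℕ} (B : Base m) (z : ℕ → ℤ) : Sint B L (gm fun n => (z n : ℚ)) := by
  refine ⟨0, ?_⟩
  rw [mem_SS]
  intro ε hε
  filter_upwards [L_nonneg hL] with n hn
  refine ⟨1, z n, fun _ => 0, one_ne_zero, ?_, by simp, fun i => ?_⟩
  · simp only [Int.cast_one, abs_one]
    exact Real.one_le_exp (by positivity)
  · simp only [Int.cast_zero, zero_mul]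
    nlinarith

/-- the size of a finite sum of characters -/
lemma ev_size {m : ℕ} (B : Base m) (f : Rg m hL) {x : ℝ}
    (h : ∀ g, f.coeff g ≠ 0 → x ≤ lv B none g) : ev B hL f ∈ Sv B L none x := by
  have hF := filt_v (B := B) hL none
  rw [ev_sum]
  refine Finset.sum_induction _ (fun y => y ∈ Sv B L none x) (fun _ _ => hF.add_mem)
    (hF.zero_mem x) fun g hg => ?_
  refine hF.anti (h g (Finsupp.mem_support_iff.1 hg)) ?_
  have h1 := hF.mul_mem (hF.alg_mem (f.coeff g)) (ch_mem hL none g)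
  rw [zero_add] at h1
  exact h1

end

section

variable {n : ℕ → ℕ} (hn : ∀ t, t ≤ n t)

lemma lv_ek {m k : ℕ} (hk : k ≠ 0) (hkm : k < pr m) :
    lv (bs m) none (fun i => -(ek m k i : ℝ)) = Real.log k := by
  rw [lv_none]
  have h1 : Real.log k = ∑ i : Fin m, (ek m k i : ℝ) * Real.log (pr i) := by
    conv_lhs => rw [← prod_ek hk hkm]
    push_cast
    rw [Real.log_prod (fun i _ => by
      have := (pr_prime i).pos
      positivity)]
    exact Finset.sum_congr rfl fun i _ => Real.log_pow _ _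
  rw [h1, ← Finset.sum_neg_distrib]
  refine Finset.sum_congr rfl fun i _ => ?_
  show -(-(ek m k i : ℝ) * Real.log (pr i)) = _
  ring

/-- the truncated series as a finite sum of characters -/
lemma exists_Y {m : ℕ} (κ : ℕ → KK (Ln n) (tLn hn))
    (hκ : ∀ k, k ≠ 0 → k < pr m → kg n k = (κ k : GG) * ch (bs m) (tLn hn)
      (fun i => -(ek m k i : ℝ))) (c : ℕ → ℚ) {M : ℕ} (hM : M < pr m) :
    rho (ev (bs m) (tLn hn) (∑ k ∈ Finset.Icc 1 M, AddMonoidAlgebra.single
      (fun i => -(ek m k i : ℝ)) (((c k : ℚ) : KK (Ln n) (tLn hn)) * κ k))) =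
      tr n (fun k => (c k : ℝ)) M := by
  unfold tr
  rw [map_sum, map_sum]
  refine Finset.sum_congr rfl fun k hk => ?_
  rw [Finset.mem_Icc] at hk
  rw [ev_single, hκ k (by omega) (by omega)]
  have e1 : (((((c k : ℚ) : KK (Ln n) (tLn hn)) * κ k : KK (Ln n) (tLn hn))) : GG) =
      ((c k : ℚ) : GG) * (κ k : GG) := by
    push_cast
    rfl
  have e2 : rho ((c k : ℚ) : GG) = algebraMap ℝ HR ((c k : ℚ) : ℝ) := by
    rw [map_ratCast rho (c k)]
    exact (map_ratCast (algebraMap ℝ HR) (c k)).symm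
  rw [e1, ← e2, ← map_mul]
  congr 1
  ring

end

end Pool.Agent.R473.DW
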