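import Mathlib
import Pool.Agent.R473.DW.Main

set_option autoImplicit false

/-!
# Linear forms in values of Dirichlet series at large integers: the theorem
-/

namespace Pool.Agent.R473.DW

open Filter Topology Pool.Agent.TH932.Abs Pool.Agent.TH932.Germs Pool.Agent.TH932.Chi
open Pool.Agent.TH796.AL Pool.Agent.Y760.ZG Pool.Agent.Y760.RT Pool.Agent.TH932.Scale

lemma Sm.mono {S : Finset ℕ} {R : ℕ} {X Y : ℝ} (h : X ≤ Y) {D : ℚ} (hD : Sm S R X D) :
    Sm S R Y D := by
  obtain ⟨a, k, h1, h2, h3⟩ := hD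
  exact ⟨a, k, h1, fun r p hp => (h2 r p hp).trans h, h3⟩

section coef

variable {n : ℕ → ℕ} (hn : ∀ t, t ≤ n t) {σ : Type} [Fintype σ] {m : ℕ}

open Classical in
/-- the coefficient of a large character -/
lemma coef {S : Finset ℕ} (P : σ → Rg m (tLn hn))
    (hP : ∀ s g, (P s).coeff g ≠ 0 → ∀ i : Fin m, pr i ∉ S → g i = 0)
    (κ : ℕ → KK (Ln n) (tLn hn)) (c : σ → ℕ → ℚ) {M : ℕ} (hM : M < pr m) {gs : Fin m → ℝ}
    (hgs0 : ∀ i : Fin m, pr i ∉ S → gs i = 0)
    (hgs : ∀ s g, (P s).coeff g ≠ 0 → lv (bs m) none gs ≤ lv (bs m) none g) {k' : ℕ}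
    (hk' : k' ∈ Finset.Icc 1 M) (hk'S : ∀ p ∈ S, ¬ p ∣ k') :
    (∑ s, P s * ∑ k ∈ Finset.Icc 1 M, AddMonoidAlgebra.single
      (fun i => -(ek m k i : ℝ)) (((c s k : ℚ) : KK (Ln n) (tLn hn)) * κ k)).coeff
      (gs + fun i => -(ek m k' i : ℝ)) =
      κ k' * ∑ s, ((c s k' : ℚ) : KK (Ln n) (tLn hn)) * (P s).coeff gs := by
  rw [AddMonoidAlgebra.coeff_sum, Finsupp.finsetSum_apply, Finset.mul_sum]
  refine Finset.sum_congr rfl fun s _ => ?_
  rw [mul_comm (P s), Finset.sum_mul, AddMonoidAlgebra.coeff_sum, Finsupp.finsetSum_apply,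
    Finset.sum_eq_single k']
  · rw [AddMonoidAlgebra.coeff_single_mul_apply]
    have e1 : (-fun i : Fin m => -(ek m k' i : ℝ)) + (gs + fun i => -(ek m k' i : ℝ)) = gs := by
      abel
    rw [e1]
    ring
  · intro k hk hne
    rw [AddMonoidAlgebra.coeff_single_mul_apply]
    have h0 : (P s).coeff ((-fun i : Fin m => -(ek m k i : ℝ)) +
        (gs + fun i => -(ek m k' i : ℝ))) = 0 := by
      by_contra hcon
      rw [Finset.mem_Icc] at hk hk'
      set h : Fin m → ℝ := (-fun i : Fin m => -(ek m k i : ℝ)) +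
        (gs + fun i => -(ek m k' i : ℝ)) with hh
      have hhi : ∀ i, h i = (ek m k i : ℝ) + (gs i - ek m k' i) := by
        intro i
        rw [hh]
        simp only [Pi.add_apply, Pi.neg_apply, neg_neg]
        ring
      have h1 := hP s h hcon
      have h2 := hgs s h hcon
      have h3 : ∀ i : Fin m, pr i ∈ S → ek m k' i = 0 := by
        intro i hi
        exact Nat.factorization_eq_zero_of_not_dvd (hk'S _ hi)
      have h4 : ∀ i : Fin m, pr i ∉ S → ek m k i = ek m k' i := by
        intro i hi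
        have h5 := h1 i hi
        rw [hhi, hgs0 i hi] at h5
        have h6 : (ek m k i : ℝ) = ek m k' i := by linarith
        exact_mod_cast h6
      have h5 : ∀ i : Fin m, ek m k i = ek m k' i := by
        by_contra hne2
        push Not at hne2
        obtain ⟨i, hi⟩ := hne2
        have hiS : pr i ∈ S := by
          by_contra h6
          exact hi (h4 i h6)
        rw [lv_none, lv_none, neg_le_neg_iff] at h2
        have h6 : ∑ i, gs i * Real.log ((bs m).P i) < ∑ i, h i * Real.log ((bs m).P i) := by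
          refine Finset.sum_lt_sum (fun j _ => ?_) ⟨i, Finset.mem_univ _, ?_⟩
          · have hl := (bs m).log_pos j
            refine mul_le_mul_of_nonneg_right ?_ hl.le
            rw [hhi]
            by_cases hj : pr j ∈ S
            · rw [h3 j hj]
              push_cast
              have : (0 : ℝ) ≤ ek m k j := Nat.cast_nonneg _
              linarith
            · rw [h4 j hj]
              linarith
          · have hl := (bs m).log_pos i
            refine mul_lt_mul_of_pos_right ?_ hl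
            rw [hhi, h3 i hiS]
            rw [h3 i hiS] at hi
            have : (0 : ℝ) < ek m k i := by exact_mod_cast Nat.pos_of_ne_zero hi
            push_cast
            linarith
        linarith
      exact hne (ek_inj (by omega) (by omega) (by omega) (by omega) (funext h5))
    rw [h0, mul_zero]
  · intro h
    exact absurd hk' h

end coef

theorem main {σ : Type} [Fintype σ] [DecidableEq σ] (c : σ → ℕ → ℚ) (α : σ → ℕ → ℝ)
    (hT : ∀ s, Tail (fun k => (c s k : ℝ)) (α s)) {S : Finset ℕ} (hS : ∀ p ∈ S, p.Prime)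
    {ks : ℕ} (X : Finset ℕ) (hX : ∀ k ∈ X, 2 ≤ k ∧ k ≤ ks ∧ ∀ p ∈ S, ¬ p ∣ k)
    (w : σ → ℕ → ℚ) (hw : ∀ s s', ∑ k ∈ X, w s k * c s' k = if s = s' then 1 else 0)
    (R : ℕ) (C : ℝ) {Bd : ℝ} (hB : 1 < Bd) : ∃ n0 : ℕ, ∀ n : ℕ, n0 ≤ n → ∀ D : σ → ℚ,
      (∀ s, Sm S R (C * n) (D s)) → (∃ s, D s ≠ 0) → ∀ (p : ℤ) (s0 : σ),
      (Bd ^ n)⁻¹ * min 1 (|(D s0 : ℝ)| / (ks : ℝ) ^ n) < |∑ s, (D s : ℝ) * α s n - p| := by
  classical
  by_contra hcon
  push Not at hcon
  choose n hn D hD hD0 p s0 hle using hcon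
  set hL := tLn hn with hhL
  have hB0 : 0 < Bd := by linarith
  have hlB : 0 < Real.log Bd := Real.log_pos hB
  -- constants
  set Λ0 : ℝ := |C| * ∑ p ∈ S, Real.log p with hΛ0
  have hΛ0n : 0 ≤ Λ0 := mul_nonneg (abs_nonneg _) (Finset.sum_nonneg fun p _ =>
    Real.log_natCast_nonneg p)
  obtain ⟨M0, hM0⟩ := exists_M (Real.log Bd + Real.log ks + 2 * Λ0 + 1)
  set M : ℕ := M0 + ks with hM
  have hMlog : Real.log Bd + Real.log ks + 2 * Λ0 + 1 ≤ Real.log ((M : ℝ) + 1) :=
    hM0.trans (log_mono (by omega))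
  set m : ℕ := M + S.sup id + 1 with hm
  have hMm : M < pr m := by
    have := pr_ge' m
    omega
  have hSm : Sub S m := by
    intro p hp
    refine ⟨hS p hp, ?_⟩
    have h1 : p ≤ S.sup id := Finset.le_sup (f := id) hp
    have := pr_ge' m
    omega
  -- the coefficients as finite sums of characters
  have hex : ∀ s, ∃ P : Rg m hL, ev (bs m) hL P = gm (fun t => D t s) ∧
      ∀ g, P.coeff g ≠ 0 → (∀ i : Fin m, pr i ∉ S → g i = 0) ∧ |lv (bs m) none g| ≤ Λ0 := by
    intro s
    refine exists_P hL hSm R (abs_nonneg C) (fun t => D t s) fun t => ?_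
    refine (hD t s).mono ?_
    unfold Ln
    have := le_abs_self C
    gcongr
  choose P hPev hPg using hex
  -- a nonzero coefficient
  choose s1 hs1 using hD0
  obtain ⟨s1', hs1'⟩ := uni_fin s1
  have hne1 : gm (fun t => D t s1') ≠ 0 := by
    rw [gm_ne_zero]
    filter_upwards [hs1'] with t ht
    rw [← ht]
    exact hs1 t
  have hP1 : P s1' ≠ 0 := by
    intro h0
    apply hne1
    rw [← hPev, h0, map_zero]
  obtain ⟨g1, hg1⟩ : ∃ g1, (P s1').coeff g1 ≠ 0 := by
    by_contra hno
    push Not at hno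
    apply hP1
    apply AddMonoidAlgebra.coeff_injective
    ext g
    rw [hno]
    rfl
  -- the largest character
  set T : Finset (Fin m → ℝ) := Finset.univ.biUnion fun s => (P s).coeff.support with hTdef
  have hmemT : ∀ s g, (P s).coeff g ≠ 0 → g ∈ T := fun s g h =>
    Finset.mem_biUnion.2 ⟨s, Finset.mem_univ _, Finsupp.mem_support_iff.2 h⟩
  obtain ⟨gs, hgsT, hgsmin⟩ := Finset.exists_min_image T (fun g => lv (bs m) none g)
    ⟨g1, hmemT _ _ hg1⟩
  obtain ⟨s2, -, hs2⟩ := Finset.mem_biUnion.1 hgsT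
  rw [Finsupp.mem_support_iff] at hs2
  have hgs0 : ∀ i : Fin m, pr i ∉ S → gs i = 0 := (hPg s2 gs hs2).1
  have hgsb := abs_le.1 (hPg s2 gs hs2).2
  have hgsm : ∀ s g, (P s).coeff g ≠ 0 → lv (bs m) none gs ≤ lv (bs m) none g := fun s g h =>
    hgsmin g (hmemT s g h)
  -- the terms of the series
  have hκex : ∀ k : ℕ, ∃ κ : KK (Ln n) hL, k ≠ 0 → k < pr m → κ ≠ 0 ∧
      kg n k = (κ : GG) * ch (bs m) hL (fun i => -(ek m k i : ℝ)) := by
    intro k
    by_cases hk : k ≠ 0 ∧ k < pr m
    · obtain ⟨κ, h1, h2⟩ := kg_eq hn hk.1 hk.2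
      exact ⟨κ, fun _ _ => ⟨h1, h2⟩⟩
    · exact ⟨0, fun h1 h2 => absurd ⟨h1, h2⟩ hk⟩
  choose κ hκ using hκex
  set Y : σ → Rg m hL := fun s => ∑ k ∈ Finset.Icc 1 M, AddMonoidAlgebra.single
      (fun i => -(ek m k i : ℝ)) (((c s k : ℚ) : KK (Ln n) hL) * κ k) with hY
  have hYtr : ∀ s, rho (ev (bs m) hL (Y s)) = tr n (fun k => (c s k : ℝ)) M := fun s =>
    exists_Y hn κ (fun k h1 h2 => (hκ k h1 h2).2) (c s) hMm
  set f : Rg m hL := ∑ s, P s * Y s with hf
  have hfev : rho (ev (bs m) hL f) = ∑ s, rho (gm fun t => D t s) *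
      tr n (fun k => (c s k : ℝ)) M := by
    rw [hf, map_sum, map_sum]
    refine Finset.sum_congr rfl fun s _ => ?_
    rw [map_mul, map_mul, hPev, hYtr]
  -- a large term which is not integral
  obtain ⟨k', hk'X, hk'⟩ : ∃ k' ∈ X, ∑ s, ((c s k' : ℚ) : KK (Ln n) hL) * (P s).coeff gs ≠ 0 := by
    by_contra hno
    push Not at hno
    apply hs2
    have e1 : (P s2).coeff gs = ∑ k ∈ X, ((w s2 k : ℚ) : KK (Ln n) hL) *
        ∑ s, ((c s k : ℚ) : KK (Ln n) hL) * (P s).coeff gs := by
      have e2 : ∀ k, ((w s2 k : ℚ) : KK (Ln n) hL) *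
          ∑ s, ((c s k : ℚ) : KK (Ln n) hL) * (P s).coeff gs =
          ∑ s, ((w s2 k * c s k : ℚ) : KK (Ln n) hL) * (P s).coeff gs := by
        intro k
        rw [Finset.mul_sum]
        refine Finset.sum_congr rfl fun s _ => ?_
        push_cast
        ring
      rw [Finset.sum_congr rfl fun k _ => e2 k, Finset.sum_comm]
      have e3 : ∀ s, ∑ k ∈ X, ((w s2 k * c s k : ℚ) : KK (Ln n) hL) * (P s).coeff gs =
          if s2 = s then (P s).coeff gs else 0 := by
        intro s
        rw [← Finset.sum_mul, ← Rat.cast_sum, hw]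
        split_ifs
        · push_cast
          rw [one_mul]
        · push_cast
          rw [zero_mul]
      rw [Finset.sum_congr rfl fun s _ => e3 s, Finset.sum_ite_eq Finset.univ s2,
        if_pos (Finset.mem_univ _)]
    rw [e1]
    refine Finset.sum_eq_zero fun k hk => ?_
    rw [hno k hk, mul_zero]
  obtain ⟨hk2, hkks, hkS⟩ := hX k' hk'X
  have hks0 : (0 : ℝ) < ks := by
    have : 0 < ks := by omega
    exact_mod_cast this
  have hks1 : (2 : ℝ) ≤ ks := by exact_mod_cast (by omega : 2 ≤ ks)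
  have hlks : 0 ≤ Real.log ks := Real.log_natCast_nonneg ks
  set g0 : Fin m → ℝ := gs + fun i => -(ek m k' i : ℝ) with hg0
  have hfg0 : f.coeff g0 ≠ 0 := by
    have h1 := coef hn P (fun s g h => (hPg s g h).1) κ c hMm hgs0 hgsm
      (Finset.mem_Icc.2 ⟨by omega, by omega⟩ : k' ∈ Finset.Icc 1 M) hkS
    have h2 : f.coeff g0 = _ := h1
    rw [h2]
    exact mul_ne_zero (hκ k' (by omega) (by omega)).1 hk'
  have hlvg0 : lv (bs m) none g0 = lv (bs m) none gs + Real.log k' := by
    rw [hg0, lv_add, lv_ek (by omega) (by omega)]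
  have hlogk' : Real.log k' ≤ Real.log ks :=
    Real.log_le_log (by exact_mod_cast (by omega : 0 < k')) (by exact_mod_cast hkks)
  -- the size of the linear form
  obtain ⟨s0', hs0'⟩ := uni_fin s0
  have hsize : ∀ s, gm (fun t => D t s) ∈ Sv (bs m) (Ln n) none (lv (bs m) none gs) := by
    intro s
    rw [← hPev]
    exact ev_size hL (bs m) (P s) (hgsm s)
  set y : ℝ := Real.log Bd + max 0 (Real.log ks + lv (bs m) none gs) with hy
  have hform : gr (fun t => ∑ s, (D t s : ℝ) * α s (n t) - p t) ∈ SR (Ln n) y := by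
    have h1 := SR_rho (hsize s0')
    rw [rho_gm, mem_SR] at h1
    rw [mem_SR]
    intro ε hε
    filter_upwards [hs0', h1 ε hε] with t h2 h3
    have h4 := hle t
    rw [h2] at h4
    have hn0 : (0 : ℝ) ≤ n t := Nat.cast_nonneg _
    have e1 : (Bd ^ n t)⁻¹ = Real.exp (-(Real.log Bd) * n t) := by
      rw [neg_mul, Real.exp_neg, mul_comm, Real.exp_nat_mul, Real.exp_log hB0]
    have e2 : (ks : ℝ) ^ n t = Real.exp (Real.log ks * n t) := by
      rw [mul_comm, Real.exp_nat_mul, Real.exp_log hks0]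
    show _ ≤ Real.exp (-(y - ε) * (n t : ℝ))
    refine h4.trans ?_
    rw [e1]
    have hpos : 0 ≤ Real.exp (-(Real.log Bd) * n t) := (Real.exp_pos _).le
    rcases le_total 0 (Real.log ks + lv (bs m) none gs) with h5 | h5
    · have h6 : min 1 (|(D t s0' : ℝ)| / (ks : ℝ) ^ n t) ≤
          Real.exp (-(lv (bs m) none gs - ε) * n t) / Real.exp (Real.log ks * n t) := by
        rw [e2]
        refine (min_le_right _ _).trans ?_
        have h7 : |(D t s0' : ℝ)| ≤ Real.exp (-(lv (bs m) none gs - ε) * n t) := h3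
        gcongr
      calc _ ≤ Real.exp (-(Real.log Bd) * n t) *
          (Real.exp (-(lv (bs m) none gs - ε) * n t) / Real.exp (Real.log ks * n t)) := by gcongr
        _ = Real.exp (-(y - ε) * (n t : ℝ)) := by
          rw [← Real.exp_sub, ← Real.exp_add, hy, max_eq_right h5]
          congr 1
          ring
    · calc _ ≤ Real.exp (-(Real.log Bd) * n t) * 1 := by
            gcongr
            exact min_le_left _ _
        _ ≤ Real.exp (-(y - ε) * (n t : ℝ)) := by
          rw [mul_one, hy, max_eq_left h5]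
          apply Real.exp_le_exp.2
          nlinarith
  -- the truncated form
  set x : ℝ := min y (Real.log ((M : ℝ) + 1) - Λ0) with hx
  have hxy : x ≤ y := min_le_left _ _
  have htail : ∀ s, rho (gm fun t => D t s) * (gr (fun t => α s (n t)) -
      tr n (fun k => (c s k : ℝ)) M) ∈ SR (Ln n) x := by
    intro s
    obtain ⟨A, hA⟩ := hT s M
    have h1 := tail_mem hn (fun k => (c s k : ℝ)) (α s) M hA
    have h2 := SR_mul hL (SR_rho (hsize s)) h1
    refine SR_anti hL ?_ h2
    have h3 := min_le_right y (Real.log ((M : ℝ) + 1) - Λ0)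
    linarith [hgsb.1]
  have hdiff : rho (ev (bs m) hL f - gm fun t => (p t : ℚ)) ∈ SR (Ln n) x := by
    have e1 : rho (ev (bs m) hL f - gm fun t => (p t : ℚ)) =
        gr (fun t => ∑ s, (D t s : ℝ) * α s (n t) - p t) -
        ∑ s, rho (gm fun t => D t s) * (gr (fun t => α s (n t)) -
          tr n (fun k => (c s k : ℝ)) M) := by
      have e2 : gr (fun t => ∑ s, (D t s : ℝ) * α s (n t) - p t) =
          ∑ s, rho (gm fun t => D t s) * gr (fun t => α s (n t)) -
            rho (gm fun t => (p t : ℚ)) := by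
        have e3 : ∀ s, rho (gm fun t => D t s) * gr (fun t => α s (n t)) =
            gr (fun t => (D t s : ℝ) * α s (n t)) := by
          intro s
          rw [rho_gm, gr_mul]
        rw [Finset.sum_congr rfl fun s _ => e3 s, gr_sum, rho_gm, gr_sub]
        congr 1
      rw [map_sub, hfev, e2]
      have e4 : ∑ s, rho (gm fun t => D t s) * (gr (fun t => α s (n t)) -
          tr n (fun k => (c s k : ℝ)) M) = ∑ s, rho (gm fun t => D t s) * gr (fun t => α s (n t)) -
          ∑ s, rho (gm fun t => D t s) * tr n (fun k => (c s k : ℝ)) M := by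
        rw [← Finset.sum_sub_distrib]
        exact Finset.sum_congr rfl fun s _ => by ring
      rw [e4]
      ring
    rw [e1]
    exact SR_sub hL (SR_anti hL hxy hform) (SR_sum hL _ _ fun s _ => htail s)
  have hdiff' := SR_rho' (B := bs m) hdiff
  have hx0 : 0 < x := by
    rw [hx, lt_min_iff]
    constructor
    · rw [hy]
      have := le_max_left 0 (Real.log ks + lv (bs m) none gs)
      linarith
    · linarith
  have hlt : lv (bs m) none g0 < x := by
    rw [hx, lt_min_iff, hlvg0]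
    constructor
    · rw [hy]
      have := le_max_right 0 (Real.log ks + lv (bs m) none gs)
      linarith
    · linarith [hgsb.2]
  have hkey := key (bs m) hL f (gm fun t => (p t : ℚ)) (fun i => int_fin hL (bs m) p i)
    (int_sint hL (bs m) p) hx0 hdiff' hfg0 hlt
  -- a prime factor
  obtain ⟨q, hq, hqk⟩ := Nat.exists_prime_and_dvd (by omega : k' ≠ 1)
  have hqm : q < pr m := lt_of_le_of_lt (Nat.le_of_dvd (by omega) hqk) (by omega)
  obtain ⟨i, hi⟩ := exists_idx hq hqm
  have hiS : pr i ∉ S := by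
    intro h
    rw [hi] at h
    exact hkS q h hqk
  have h1 := hkey i
  rw [hg0] at h1
  simp only [Pi.add_apply] at h1
  rw [hgs0 i hiS] at h1
  have h2 : 1 ≤ ek m k' i := by
    show 1 ≤ k'.factorization (pr i)
    rw [hi]
    exact (hq.dvd_iff_one_le_factorization (by omega)).1 hqk
  have h3 : (1 : ℝ) ≤ ek m k' i := by exact_mod_cast h2
  linarith

end Pool.Agent.R473.DW
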