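import Mathlib
import Pool.Agent.R473.DW.Thm
import Pool.Agent.R473.TB.Fin

set_option autoImplicit false

/-!
# Digits of values of Dirichlet series at large integers
-/

namespace Pool.Agent.R473.DW

open Pool.Agent.Y760.RT Pool.Agent.R473.TB

/-- dual functions -/
lemma dual {σ : Type} [Fintype σ] [DecidableEq σ] (c : σ → ℕ → ℚ) (G : ℕ → Prop)
    (hind : ∀ v : σ → ℚ, (∀ k, G k → ∑ s, v s * c s k = 0) → v = 0) :
    ∃ (X : Finset ℕ) (w : σ → ℕ → ℚ), (∀ k ∈ X, G k) ∧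
      ∀ s s', ∑ k ∈ X, w s k * c s' k = if s = s' then 1 else 0 := by
  classical
  set row : ℕ → σ → ℚ := fun k s => c s k with hrow
  have htop : Submodule.span ℚ (row '' {k | G k}) = ⊤ := by
    by_contra hne
    obtain ⟨f, hf0, hf⟩ := Submodule.exists_le_ker_of_lt_top _ (lt_top_iff_ne_top.2 hne)
    have hfv : ∀ x : σ → ℚ, f x = ∑ s, x s * f (Pi.single s 1) := by
      intro x
      have h1 : x = ∑ s, x s • (Pi.single s (1 : ℚ) : σ → ℚ) := by
        ext t
        rw [Finset.sum_apply, Finset.sum_eq_single t]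
        · simp
        · intro s _ hs
          simp [Pi.single_apply, Ne.symm hs]
        · intro h
          exact absurd (Finset.mem_univ t) h
      conv_lhs => rw [h1]
      rw [map_sum]
      exact Finset.sum_congr rfl fun s _ => by rw [map_smul, smul_eq_mul]
    have h1 := hind (fun s => f (Pi.single s 1)) (by
      intro k hk
      have h2 : row k ∈ Submodule.span ℚ (row '' {k | G k}) :=
        Submodule.subset_span ⟨k, hk, rfl⟩
      have h3 := hf h2
      rw [LinearMap.mem_ker, hfv] at h3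
      rw [← h3]
      exact Finset.sum_congr rfl fun s _ => mul_comm _ _)
    apply hf0
    ext s
    have h2 := congrFun h1 s
    simpa using h2
  have h1 : ∀ s : σ, ∃ l ∈ Finsupp.supported ℚ ℚ {k | G k},
      Finsupp.linearCombination ℚ row l = Pi.single s (1 : ℚ) := by
    intro s
    rw [← Finsupp.mem_span_image_iff_linearCombination, htop]
    trivial
  choose l hl1 hl2 using h1
  refine ⟨Finset.univ.biUnion fun s => (l s).support, fun s k => l s k, ?_, ?_⟩
  · intro k hk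
    obtain ⟨s, -, hs⟩ := Finset.mem_biUnion.1 hk
    exact hl1 s hs
  · intro s s'
    have h2 := congrFun (hl2 s) s'
    rw [Finsupp.linearCombination_apply, Finsupp.sum, Finset.sum_apply, Pi.single_apply] at h2
    have h3 : ∑ k ∈ Finset.univ.biUnion (fun s => (l s).support), l s k * c s' k =
        ∑ k ∈ (l s).support, l s k * c s' k := by
      symm
      refine Finset.sum_subset (Finset.subset_biUnion_of_mem (fun s => (l s).support)
        (Finset.mem_univ s)) fun k _ hk => ?_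
      rw [Finsupp.notMem_support_iff.1 hk, zero_mul]
    rw [h3]
    simp only [Pi.smul_apply, smul_eq_mul] at h2
    refine h2.trans ?_
    by_cases h : s = s'
    · rw [if_pos h, if_pos h.symm]
    · rw [if_neg h, if_neg (Ne.symm h)]

/-- **Linear forms whose coefficients are sums of few `S`-units** -/
theorem main2 {σ : Type} [Fintype σ] [DecidableEq σ] (c : σ → ℕ → ℚ) (α : σ → ℕ → ℝ)
    (hT : ∀ s, Tail (fun k => (c s k : ℝ)) (α s)) {S : Finset ℕ} (hS : ∀ p ∈ S, p.Prime)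
    (hind : ∀ v : σ → ℚ, (∀ k, 2 ≤ k → (∀ p ∈ S, ¬ p ∣ k) → ∑ s, v s * c s k = 0) → v = 0) :
    ∃ ks : ℕ, 2 ≤ ks ∧ ∀ (R : ℕ) (C Bd : ℝ), 1 < Bd → ∃ n0 : ℕ, ∀ n : ℕ, n0 ≤ n → ∀ D : σ → ℚ,
      (∀ s, Sm S R (C * n) (D s)) → (∃ s, D s ≠ 0) → ∀ (p : ℤ) (s0 : σ),
      (Bd ^ n)⁻¹ * min 1 (|(D s0 : ℝ)| / (ks : ℝ) ^ n) < |∑ s, (D s : ℝ) * α s n - p| := by
  obtain ⟨X, w, hX, hw⟩ := dual c (fun k => 2 ≤ k ∧ ∀ p ∈ S, ¬ p ∣ k)
    fun v hv => hind v fun k h1 h2 => hv k ⟨h1, h2⟩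
  refine ⟨max 2 (X.sup id), le_max_left _ _, fun R C Bd hB => ?_⟩
  exact main c α hT hS X (fun k hk => ⟨(hX k hk).1,
    (Finset.le_sup (f := id) hk).trans (le_max_right _ _), (hX k hk).2⟩) w hw R C hB

/-- equal words of digits -/
lemma same_word {b : ℕ} (hb : 2 ≤ b) (x y : ℝ) (i j N : ℕ)
    (h : ∀ l < N, digit b x (i + l) = digit b y (j + l)) :
    ∃ p : ℤ, |(b : ℝ) ^ i * x - (b : ℝ) ^ j * y - p| ≤ ((b : ℝ) ^ N)⁻¹ := by
  have hb0 : (0 : ℝ) < b := by positivity
  have hD : ∀ (x : ℝ) (k : ℕ), |digit b x k| ≤ (b : ℤ) := fun x k => by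
    rw [abs_of_nonneg (digit_mem hb x k).1]; exact (digit_mem hb x k).2.le
  have h1 : ∀ (x : ℝ) (i : ℕ), (b : ℝ) ^ i * x = ((b : ℤ) ^ i * ⌊x⌋ + Zd b (digit b x) i : ℤ) +
      (∑ k ∈ Finset.range N, (digit b x (i + k) : ℝ) / (b : ℝ) ^ (k + 1) +
        V b (fun k => digit b x (i + (N + k))) / (b : ℝ) ^ N) := by
    intro x i
    have h2 := digit_sum hb x
    have h3 := pow_V hb (hD x) i
    have h4 := V_split hb (e := fun k => digit b x (i + k)) (fun k => hD x _) N
    rw [← h4]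
    push_cast
    rw [add_assoc, ← h3, ← mul_add, ← h2]
  refine ⟨(b : ℤ) ^ i * ⌊x⌋ + Zd b (digit b x) i - ((b : ℤ) ^ j * ⌊y⌋ + Zd b (digit b y) j), ?_⟩
  rw [h1 x i, h1 y j]
  have e1 : ∑ k ∈ Finset.range N, (digit b x (i + k) : ℝ) / (b : ℝ) ^ (k + 1) =
      ∑ k ∈ Finset.range N, (digit b y (j + k) : ℝ) / (b : ℝ) ^ (k + 1) :=
    Finset.sum_congr rfl fun k hk => by rw [h k (Finset.mem_range.1 hk)]
  rw [e1]
  have hv : ∀ (x : ℝ) (i : ℕ), 0 ≤ V b (fun k => digit b x (i + (N + k))) ∧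
      V b (fun k => digit b x (i + (N + k))) ≤ 1 := fun x i =>
    ⟨V_nonneg fun k => (digit_mem hb x _).1, V_le_one hb fun k => digit_mem hb x _⟩
  have e2 : (((b : ℤ) ^ i * ⌊x⌋ + Zd b (digit b x) i : ℤ) : ℝ) +
      (∑ k ∈ Finset.range N, (digit b y (j + k) : ℝ) / (b : ℝ) ^ (k + 1) +
        V b (fun k => digit b x (i + (N + k))) / (b : ℝ) ^ N) -
      ((((b : ℤ) ^ j * ⌊y⌋ + Zd b (digit b y) j : ℤ) : ℝ) +
      (∑ k ∈ Finset.range N, (digit b y (j + k) : ℝ) / (b : ℝ) ^ (k + 1) +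
        V b (fun k => digit b y (j + (N + k))) / (b : ℝ) ^ N)) -
      (((b : ℤ) ^ i * ⌊x⌋ + Zd b (digit b x) i - ((b : ℤ) ^ j * ⌊y⌋ + Zd b (digit b y) j) : ℤ) :
        ℝ) = (V b (fun k => digit b x (i + (N + k))) - V b (fun k => digit b y (j + (N + k)))) /
          (b : ℝ) ^ N := by
    push_cast
    ring
  rw [e2, abs_div, abs_of_pos (by positivity : (0 : ℝ) < (b : ℝ) ^ N), div_eq_mul_inv]
  have h5 : |V b (fun k => digit b x (i + (N + k))) - V b (fun k => digit b y (j + (N + k)))| ≤ 1 := by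
    rw [abs_le]
    have := hv x i
    have := hv y j
    constructor <;> linarith [(hv x i).1, (hv x i).2, (hv y j).1, (hv y j).2]
  calc _ ≤ 1 * ((b : ℝ) ^ N)⁻¹ := by gcongr
    _ = _ := one_mul _

lemma pow_prod {b : ℕ} (hb : b ≠ 0) (i : ℕ) :
    (b : ℚ) ^ i = ∏ p ∈ b.primeFactors, (p : ℚ) ^ ((i * b.factorization p : ℕ) : ℤ) := by
  have h1 := Nat.prod_factorization_pow_eq_self hb
  have h2 : (b : ℚ) = ∏ p ∈ b.primeFactors, (p : ℚ) ^ b.factorization p := by
    conv_lhs => rw [← h1]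
    rw [Finsupp.prod, Nat.support_factorization]
    push_cast
    rfl
  rw [h2, ← Finset.prod_pow]
  refine Finset.prod_congr rfl fun p _ => ?_
  rw [zpow_natCast, ← pow_mul, mul_comm]

/-- **No long word of digits occurs twice.** -/
theorem digits {σ : Type} [Fintype σ] [DecidableEq σ] (c : σ → ℕ → ℚ) (α : σ → ℕ → ℝ)
    (hT : ∀ s, Tail (fun k => (c s k : ℝ)) (α s)) {b : ℕ} (hb : 2 ≤ b)
    (hind : ∀ v : σ → ℚ, (∀ k, 2 ≤ k → (∀ p ∈ b.primeFactors, ¬ p ∣ k) →
      ∑ s, v s * c s k = 0) → v = 0) :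
    ∃ κ : ℝ, ∀ ε C : ℝ, 0 < ε → ∃ n0 : ℕ, ∀ n : ℕ, n0 ≤ n → ∀ (s s' : σ) (i j : ℕ),
      (i : ℝ) ≤ C * n → (j : ℝ) ≤ C * n → κ * n ≤ max i j → (s, i) ≠ (s', j) →
      ∃ l : ℕ, (l : ℝ) < ε * n ∧ digit b (α s n) (i + l) ≠ digit b (α s' n) (j + l) := by
  obtain ⟨ks, hks, hmain⟩ := main2 c α hT (S := b.primeFactors)
    (fun p hp => Nat.prime_of_mem_primeFactors hp) hind
  have hb1 : (1 : ℝ) < b := by exact_mod_cast (by omega : 1 < b)
  have hb0 : (0 : ℝ) < b := by linarith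
  have hbn : b ≠ 0 := by omega
  refine ⟨ks + 1, fun ε C hε => ?_⟩
  obtain ⟨n0, hn0⟩ := hmain 2 (|C| * b) ((b : ℝ) ^ ε) (Real.one_lt_rpow hb1 hε)
  refine ⟨n0 + 1, fun n hn s s' i j hi hj hmax hne => ?_⟩
  by_contra hcon
  push Not at hcon
  set N : ℕ := ⌈ε * n⌉₊ with hN
  obtain ⟨p, hp⟩ := same_word hb (α s n) (α s' n) i j N fun l hl => hcon l (Nat.lt_ceil.1 hl)
  set D : σ → ℚ := fun t => (if t = s then (b : ℚ) ^ i else 0) - (if t = s' then (b : ℚ) ^ j else 0)
    with hD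
  have hnpos : (0 : ℝ) ≤ n := Nat.cast_nonneg n
  have hCb : ∀ q : ℕ, (q : ℝ) ≤ C * n → ∀ p : ℕ, |(((q * b.factorization p : ℕ) : ℤ) : ℝ)| ≤
      |C| * b * n := by
    intro q hq p
    have h1 : b.factorization p ≤ b := (Nat.factorization_lt p hbn).le
    have h2 : (b.factorization p : ℝ) ≤ b := by exact_mod_cast h1
    have h3 : (q : ℝ) ≤ |C| * n := hq.trans (by gcongr; exact le_abs_self C)
    push_cast
    rw [abs_of_nonneg (by positivity)]
    calc (q : ℝ) * b.factorization p ≤ |C| * n * b := by gcongr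
      _ = _ := by ring
  have hSm : ∀ t, Sm b.primeFactors 2 (|C| * b * n) (D t) := by
    intro t
    refine ⟨![if t = s then 1 else 0, -(if t = s' then 1 else 0)],
      ![fun p => ((i * b.factorization p : ℕ) : ℤ), fun p => ((j * b.factorization p : ℕ) : ℤ)],
      ?_, ?_, ?_⟩
    · intro r
      fin_cases r
      · simp only [Fin.zero_eta, Matrix.cons_val_zero]
        split_ifs <;> simp
      · simp only [Fin.mk_one, Matrix.cons_val_one]
        split_ifs <;> simp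
    · intro r p _
      fin_cases r
      · exact hCb i hi p
      · exact hCb j hj p
    · rw [Fin.sum_univ_two]
      simp only [Matrix.cons_val_zero, Matrix.cons_val_one]
      rw [← pow_prod hbn, ← pow_prod hbn, hD]
      simp only []
      split_ifs <;> push_cast <;> ring
  have hbq : (1 : ℚ) < b := by exact_mod_cast (by omega : 1 < b)
  have hsize : ∃ s0, (b : ℝ) ^ (max i j - 1) ≤ |(D s0 : ℝ)| := by
    by_cases hss : s = s'
    · subst hss
      have hij : i ≠ j := fun h => hne (by rw [h])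
      refine ⟨s, ?_⟩
      have e1 : (D s : ℝ) = (b : ℝ) ^ i - (b : ℝ) ^ j := by
        rw [hD]
        simp
      rw [e1]
      have key : ∀ u v : ℕ, u < v → (b : ℝ) ^ (v - 1) ≤ (b : ℝ) ^ v - (b : ℝ) ^ u := by
        intro u v huv
        have h1 : (b : ℝ) ^ u ≤ (b : ℝ) ^ (v - 1) := pow_le_pow_right₀ hb1.le (by omega)
        have h2 : (b : ℝ) ^ v = b * (b : ℝ) ^ (v - 1) := by
          rw [← pow_succ']
          congr 1
          omega
        have h3 : (0 : ℝ) < (b : ℝ) ^ (v - 1) := by positivity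
        have h4 : (2 : ℝ) ≤ b := by exact_mod_cast hb
        nlinarith
      rcases lt_or_gt_of_ne hij with h | h
      · rw [max_eq_right h.le, abs_sub_comm]
        exact (key i j h).trans (le_abs_self _)
      · rw [max_eq_left h.le]
        exact (key j i h).trans (le_abs_self _)
    · have hmono : ∀ u v : ℕ, u ≤ v → (b : ℝ) ^ u ≤ (b : ℝ) ^ v := fun u v h =>
        pow_le_pow_right₀ hb1.le h
      rcases le_total i j with h | h
      · refine ⟨s', ?_⟩
        have e1 : (D s' : ℝ) = -(b : ℝ) ^ j := by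
          rw [hD]
          simp [Ne.symm hss]
        rw [e1, abs_neg, abs_of_pos (by positivity), max_eq_right h]
        exact hmono _ _ (by omega)
      · refine ⟨s, ?_⟩
        have e1 : (D s : ℝ) = (b : ℝ) ^ i := by
          rw [hD]
          simp [hss]
        rw [e1, abs_of_pos (by positivity), max_eq_left h]
        exact hmono _ _ (by omega)
  obtain ⟨s0, hs0⟩ := hsize
  have hD0 : ∃ t, D t ≠ 0 := by
    refine ⟨s0, fun h0 => ?_⟩
    rw [h0] at hs0
    simp only [Rat.cast_zero, abs_zero] at hs0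
    have : (0 : ℝ) < (b : ℝ) ^ (max i j - 1) := by positivity
    linarith
  have h1 := hn0 n (by omega) D hSm hD0 p s0
  have hks0 : (0 : ℝ) < (ks : ℝ) ^ n := by
    have : (0 : ℝ) < ks := by exact_mod_cast (by omega : 0 < ks)
    positivity
  have h2 : 1 ≤ |(D s0 : ℝ)| / (ks : ℝ) ^ n := by
    rw [le_div_iff₀ hks0, one_mul]
    refine le_trans ?_ hs0
    have h3 : (ks + 1) * n ≤ max i j := by exact_mod_cast hmax
    have h4 : ks * n ≤ max i j - 1 := by
      have : (ks + 1) * n = ks * n + n := by ring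
      omega
    have h5 : ks ≤ b ^ ks := (Nat.lt_pow_self (by omega : 1 < b)).le
    have h6 : (ks : ℝ) ≤ (b : ℝ) ^ ks := by exact_mod_cast h5
    calc (ks : ℝ) ^ n ≤ ((b : ℝ) ^ ks) ^ n := by gcongr
      _ = (b : ℝ) ^ (ks * n) := by rw [pow_mul]
      _ ≤ _ := pow_le_pow_right₀ hb1.le h4
  rw [min_eq_left h2, mul_one] at h1
  have h3 : ∑ t, (D t : ℝ) * α t n - p = (b : ℝ) ^ i * α s n - (b : ℝ) ^ j * α s' n - p := by
    congr 1
    have e1 : ∀ t, (D t : ℝ) * α t n = (if t = s then (b : ℝ) ^ i * α t n else 0) -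
        (if t = s' then (b : ℝ) ^ j * α t n else 0) := by
      intro t
      rw [hD]
      simp only []
      split_ifs <;> push_cast <;> ring
    rw [Finset.sum_congr rfl fun t _ => e1 t, Finset.sum_sub_distrib,
      Finset.sum_ite_eq' Finset.univ s, Finset.sum_ite_eq' Finset.univ s',
      if_pos (Finset.mem_univ _), if_pos (Finset.mem_univ _)]
  rw [h3] at h1
  have h4 : ((b : ℝ) ^ N)⁻¹ ≤ (((b : ℝ) ^ ε) ^ n)⁻¹ := by
    gcongr
    rw [← Real.rpow_natCast, ← Real.rpow_mul hb0.le, ← Real.rpow_natCast]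
    exact Real.rpow_le_rpow_of_exponent_le hb1.le (Nat.le_ceil _)
  linarith

/-- the number of different blocks of `n` digits -/
noncomputable def dblocks (b : ℕ) (x : ℝ) (n : ℕ) : ℕ :=
  (Set.range fun i : ℕ => fun j : Fin n => digit b x (i + j)).ncard

/-- many blocks -/
theorem many_blocks {σ : Type} [Fintype σ] [DecidableEq σ] (c : σ → ℕ → ℚ) (α : σ → ℕ → ℝ)
    (hT : ∀ s, Tail (fun k => (c s k : ℝ)) (α s)) {b : ℕ} (hb : 2 ≤ b)
    (hind : ∀ v : σ → ℚ, (∀ k, 2 ≤ k → (∀ p ∈ b.primeFactors, ¬ p ∣ k) →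
      ∑ s, v s * c s k = 0) → v = 0) (C : ℝ) : ∃ n0 : ℕ, ∀ n : ℕ, n0 ≤ n → ∀ s : σ,
      C * n < dblocks b (α s n) n := by
  obtain ⟨κ, hκ⟩ := digits c α hT hb hind
  set A : ℕ := ⌈|κ|⌉₊ with hA
  set E : ℕ := ⌈|C|⌉₊ + 1 with hE
  obtain ⟨n0, hn0⟩ := hκ 1 (A + E : ℕ) one_pos
  refine ⟨n0 + 1, fun n hn s => ?_⟩
  have hn1 : 1 ≤ n := by omega
  have hnr : (1 : ℝ) ≤ n := by exact_mod_cast hn1
  have hκA : κ ≤ A := (le_abs_self κ).trans (Nat.le_ceil _)
  have hfin : (Set.range fun i : ℕ => fun j : Fin n => digit b (α s n) (i + j)).Finite := by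
    refine (Set.Finite.pi' fun _ : Fin n => Set.finite_Icc (0 : ℤ) b).subset ?_
    rintro _ ⟨i, rfl⟩ j
    exact ⟨(digit_mem hb _ _).1, (digit_mem hb _ _).2.le⟩
  have hsub : (fun i : ℕ => fun j : Fin n => digit b (α s n) (i + j)) ''
      (Finset.Ico (A * n) ((A + E) * n) : Finset ℕ) ⊆
      Set.range fun i : ℕ => fun j : Fin n => digit b (α s n) (i + j) := Set.image_subset_range _ _
  have hinj : Set.InjOn (fun i : ℕ => fun j : Fin n => digit b (α s n) (i + j))
      (Finset.Ico (A * n) ((A + E) * n) : Finset ℕ) := by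
    intro i hi j hj hij
    by_contra hne
    rw [Finset.mem_coe, Finset.mem_Ico] at hi hj
    have hi2 : (i : ℝ) ≤ ((A + E : ℕ) : ℝ) * n := by exact_mod_cast hi.2.le
    have hj2 : (j : ℝ) ≤ ((A + E : ℕ) : ℝ) * n := by exact_mod_cast hj.2.le
    obtain ⟨l, hl, hd⟩ := hn0 n (by omega) s s i j hi2 hj2 (by
      have h1 : ((A * n : ℕ) : ℝ) ≤ i := by exact_mod_cast hi.1
      have h2 : (i : ℝ) ≤ ((max i j : ℕ) : ℝ) := by exact_mod_cast le_max_left i j
      refine le_trans ?_ h2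
      push_cast at h1
      refine le_trans ?_ h1
      gcongr) (fun h => hne (Prod.ext_iff.1 h).2)
    rw [one_mul] at hl
    have hl' : l < n := by exact_mod_cast hl
    exact hd (congrFun hij ⟨l, hl'⟩)
  have h1 := Set.ncard_le_ncard hsub hfin
  rw [Set.ncard_image_of_injOn hinj, Set.ncard_coe_finset, Nat.card_Ico] at h1
  have h2 : (A + E) * n - A * n = E * n := by
    rw [add_mul]
    omega
  rw [h2] at h1
  have h3 : ((E * n : ℕ) : ℝ) ≤ dblocks b (α s n) n := by exact_mod_cast h1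
  refine lt_of_lt_of_le ?_ h3
  have h4 : C < E := by
    rw [hE]
    push_cast
    have := (le_abs_self C).trans (Nat.le_ceil |C|)
    linarith
  push_cast
  nlinarith

end Pool.Agent.R473.DW
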