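import Mathlib
import Pool.Agent.R473.DW.Dig

set_option autoImplicit false

/-!
# Shifted series and independence
-/

namespace Pool.Agent.R473.DW

open Pool.Agent.Y760.RT Filter

lemma tail_shift {c : ℕ → ℚ} {α : ℕ → ℝ} (h : Tail (fun k => (c k : ℝ)) α) (j : ℕ) :
    Tail (fun k => ((c k * ((k : ℚ)⁻¹) ^ j : ℚ) : ℝ)) (fun n => α (n + j)) := by
  intro M
  obtain ⟨A, hA⟩ := h M
  refine ⟨|A|, ?_⟩
  obtain ⟨N, hN⟩ := eventually_atTop.1 hA
  filter_upwards [eventually_ge_atTop N] with n hn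
  have h1 := hN (n + j) (by omega)
  have e1 : ∑ k ∈ Finset.Icc 1 M, ((c k * ((k : ℚ)⁻¹) ^ j : ℚ) : ℝ) / (k : ℝ) ^ n =
      ∑ k ∈ Finset.Icc 1 M, (c k : ℝ) / (k : ℝ) ^ (n + j) := by
    refine Finset.sum_congr rfl fun k hk => ?_
    rw [Finset.mem_Icc] at hk
    have : (k : ℝ) ≠ 0 := by
      have : 0 < k := by omega
      positivity
    push_cast
    rw [pow_add, inv_pow, div_eq_mul_inv, div_eq_mul_inv, mul_inv]
    ring
  rw [e1]
  refine h1.trans ?_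
  have h2 : (0 : ℝ) < ((M : ℝ) + 1) ^ n := by positivity
  have h3 : (1 : ℝ) ≤ ((M : ℝ) + 1) ^ j := one_le_pow₀ (by
    have : (0 : ℝ) ≤ M := Nat.cast_nonneg M
    linarith)
  rw [pow_add]
  have h4 : (0 : ℝ) < ((M : ℝ) + 1) ^ n * ((M : ℝ) + 1) ^ j := by positivity
  rw [div_le_div_iff₀ h4 h2]
  have h5 := le_abs_self A
  have h6 := abs_nonneg A
  calc A * ((M : ℝ) + 1) ^ n ≤ |A| * ((M : ℝ) + 1) ^ n := by gcongr
    _ = |A| * (((M : ℝ) + 1) ^ n * 1) := by ring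
    _ ≤ |A| * (((M : ℝ) + 1) ^ n * ((M : ℝ) + 1) ^ j) := by gcongr

/-- a polynomial vanishing at the inverses of infinitely many integers -/
lemma poly_zero {h : ℕ} (v : Fin (h + 1) → ℚ) {Q : Set ℕ} (hQ : Q.Infinite)
    (hv : ∀ q ∈ Q, ∑ j, v j * ((q : ℚ)⁻¹) ^ (j : ℕ) = 0) : v = 0 := by
  set P : Polynomial ℚ := ∑ j : Fin (h + 1), Polynomial.C (v j) * Polynomial.X ^ (j : ℕ) with hP
  have h0 : P = 0 := by
    refine Polynomial.eq_zero_of_infinite_isRoot P ?_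
    have hinj : Set.InjOn (fun q : ℕ => ((q : ℚ)⁻¹)) Q := by
      intro a _ b _ hab
      have := inv_injective hab
      exact_mod_cast this
    refine (hQ.image hinj).mono ?_
    rintro _ ⟨q, hq, rfl⟩
    show Polynomial.eval _ P = 0
    rw [hP, Polynomial.eval_finset_sum]
    simpa using hv q hq
  funext j
  have h1 : P.coeff (j : ℕ) = v j := by
    rw [hP, Polynomial.finsetSum_coeff, Finset.sum_eq_single j]
    · simp
    · intro i _ hi
      rw [Polynomial.coeff_C_mul_X_pow, if_neg]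
      exact fun h => hi (Fin.ext h.symm)
    · intro h
      exact absurd (Finset.mem_univ j) h
  rw [← h1, h0]
  rfl

lemma primes_inf (S : Finset ℕ) : {p : ℕ | p.Prime ∧ p ∉ S}.Infinite := by
  have h1 : {p : ℕ | p.Prime ∧ p ∉ S} = {p : ℕ | p.Prime} \ (S : Set ℕ) := by
    ext p
    simp
  rw [h1]
  exact Nat.infinite_setOfPred_prime.diff S.finite_toSet

/-- independence of the shifts of one series -/
lemma ind_shift (g : ℕ → ℚ) (hg : ∀ p : ℕ, p.Prime → g p ≠ 0) (S : Finset ℕ) (hS : ∀ p ∈ S, p.Prime)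
    (h : ℕ) (v : Fin (h + 1) → ℚ) (hv : ∀ k, 2 ≤ k → (∀ p ∈ S, ¬ p ∣ k) →
      ∑ s : Fin (h + 1), v s * (g k * ((k : ℚ)⁻¹) ^ (s : ℕ)) = 0) : v = 0 := by
  refine poly_zero v (primes_inf S) fun q hq => ?_
  have h1 := hv q hq.1.two_le (fun p hp hpq => by
    rcases (Nat.dvd_prime hq.1).1 hpq with h | h
    · exact (hS p hp).one_lt.ne' h
    · exact hq.2 (by rw [← h]; exact hp))
  have h2 : ∑ s : Fin (h + 1), v s * (g q * ((q : ℚ)⁻¹) ^ (s : ℕ)) =
      g q * ∑ s : Fin (h + 1), v s * ((q : ℚ)⁻¹) ^ (s : ℕ) := by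
    rw [Finset.mul_sum]
    exact Finset.sum_congr rfl fun s _ => by ring
  rw [h2] at h1
  exact (mul_eq_zero.1 h1).resolve_left (hg q hq.1)

end Pool.Agent.R473.DW
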