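import Mathlib
import Pool.Agent.R473.DW.Shift
import Pool.Agent.TH883.Zg.Sign

set_option autoImplicit false

/-!
# Multiple zeta values with one large argument
-/

namespace Pool.Agent.R473.DW

open Pool.Agent.Y760.RT Pool.Agent.TH507.ZS Pool.Agent.TH507.HS Filter

/-- `trunc [s_1, ..., s_r] m` is the sum of `∏ k_i ^ (-s_i)` over `m > k_1 > ... > k_r ≥ 1` -/
noncomputable def trunc : List ℕ → ℕ → ℝ
  | [], _ => 1
  | s :: l, m => ∑ j ∈ Finset.Ico 1 m, trunc l j / (j : ℝ) ^ s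

/-- the multiple zeta value `ζ(s_1, ..., s_r)`, `s_1` belongs to the largest variable -/
noncomputable def mzv : List ℕ → ℝ
  | [] => 1
  | s :: l => ∑' k : ℕ, trunc l (k + 1) / ((k + 1 : ℕ) : ℝ) ^ s

lemma trunc_hs (l : List ℕ+) : ∀ m, trunc (l.map fun a : ℕ+ => (a : ℕ)) m = ((hs l m : ℚ) : ℝ) := by
  induction l with
  | nil => intro m; rw [List.map_nil, trunc, hs_nil, Rat.cast_one]
  | cons a l ih =>
    intro m
    rw [List.map_cons, trunc, hs_cons]
    push_cast
    exact Finset.sum_congr rfl fun j _ => by rw [ih]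

lemma mzv_dser (s : ℕ) (l : List ℕ+) : mzv (s :: l.map fun a : ℕ+ => (a : ℕ)) = dser (hs l) s := by
  rw [mzv, dser]
  exact tsum_congr fun k => by rw [trunc_hs]

lemma tail_hs (l : List ℕ+) : Tail (fun k => ((hs l k : ℚ) : ℝ)) (dser (hs l)) := by
  refine tail_dser (A := l.length + 1) fun k hk => ?_
  have hk' : (1 : ℝ) ≤ k := by exact_mod_cast hk
  refine (hs_bound l k hk).trans ?_
  have h1 : (k : ℝ) ^ l.length ≤ (k : ℝ) ^ (l.length + 1) := pow_le_pow_right₀ hk' (by omega)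
  have h2 : (1 : ℝ) ≤ ((l.length + 1 : ℕ) : ℝ) := by exact_mod_cast (by omega : 1 ≤ l.length + 1)
  have h3 : (0 : ℝ) ≤ (k : ℝ) ^ (l.length + 1) := by positivity
  nlinarith

variable {σ : Type} [Fintype σ] [DecidableEq σ] (sh : σ → ℕ) (tl : σ → List ℕ+)

omit [DecidableEq σ] in
lemma ind_hs (hinj : Function.Injective fun s => (sh s, tl s)) (S : Finset ℕ)
    (hS : ∀ p ∈ S, p.Prime) (v : σ → ℚ) (hv : ∀ k, 2 ≤ k → (∀ p ∈ S, ¬ p ∣ k) →
      ∑ s, v s * (hs (tl s) k * ((k : ℚ)⁻¹) ^ sh s) = 0) : v = 0 := by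
  classical
  set h : ℕ := Finset.univ.sup sh with hh
  set Λ : Finset (List ℕ+) := Finset.univ.image tl with hΛ
  have hsh : ∀ s, sh s < h + 1 := fun s =>
    Nat.lt_succ_of_le (Finset.le_sup (f := sh) (Finset.mem_univ s))
  have htl : ∀ s, tl s ∈ Λ := fun s => Finset.mem_image_of_mem _ (Finset.mem_univ s)
  set φ : σ → Fin (h + 1) × Λ := fun s => (⟨sh s, hsh s⟩, ⟨tl s, htl s⟩) with hφ
  have hφi : Function.Injective φ := by
    intro s s' hss
    apply hinj
    have h1 := congrArg (fun x : Fin (h + 1) × Λ => (x.1 : ℕ)) hss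
    have h2 := congrArg (fun x : Fin (h + 1) × Λ => (x.2 : List ℕ+)) hss
    exact Prod.ext h1 h2
  set c : Fin (h + 1) × Λ → ℚ := fun x => ∑ s, if φ s = x then v s else 0 with hc
  have h1 : c = 0 := by
    refine Pool.Agent.TH883.Zg.hs_prime Λ h (S.sup id + 1) c fun q hq hY => ?_
    have h2 := hv q hq.two_le (fun p hp hpq => by
      have h3 : p ≤ S.sup id := Finset.le_sup (f := id) hp
      rcases (Nat.dvd_prime hq).1 hpq with h | h
      · exact (hS p hp).one_lt.ne' h
      · omega)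
    rw [← h2]
    have e1 : ∀ x : Fin (h + 1) × Λ, c x * (hs x.2.1 q / (q : ℚ) ^ (x.1 : ℕ)) =
        ∑ s, if φ s = x then v s * (hs (tl s) q * ((q : ℚ)⁻¹) ^ sh s) else 0 := by
      intro x
      rw [hc]
      simp only []
      rw [Finset.sum_mul]
      refine Finset.sum_congr rfl fun s _ => ?_
      split_ifs with hx
      · rw [← hx, hφ]
        simp only []
        rw [inv_pow, div_eq_mul_inv]
      · rw [zero_mul]
    rw [Finset.sum_congr rfl fun x _ => e1 x, Finset.sum_comm]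
    refine Finset.sum_congr rfl fun s _ => ?_
    rw [Finset.sum_ite_eq Finset.univ (φ s), if_pos (Finset.mem_univ _)]
  funext s
  have h2 := congrFun h1 (φ s)
  rw [hc] at h2
  simp only [Pi.zero_apply] at h2
  rw [Finset.sum_eq_single s] at h2
  · rw [if_pos rfl] at h2
    exact h2
  · intro s' _ hs'
    rw [if_neg]
    exact fun h => hs' (hφi h)
  · intro h
    exact absurd (Finset.mem_univ s) h

omit [Fintype σ] [DecidableEq σ] in
lemma tail_mz (s : σ) : Tail (fun k => ((hs (tl s) k * ((k : ℚ)⁻¹) ^ sh s : ℚ) : ℝ))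
    (fun n => mzv ((n + sh s) :: (tl s).map fun a : ℕ+ => (a : ℕ))) := by
  have h1 := tail_shift (tail_hs (tl s)) (sh s)
  simp only [mzv_dser]
  exact h1

end Pool.Agent.R473.DW
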