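import Mathlib
import Pool.Agent.R473.DW.Mzv

set_option autoImplicit false

/-!
# Multiple zeta values with one large argument: forms, digits, blocks, indexed by the weight
-/

namespace Pool.Agent.R473.DW

open Pool.Agent.Y760.RT Pool.Agent.TH507.ZS Pool.Agent.TH507.HS Pool.Agent.R473.TB Filter

/-- the multiple zeta value `ζ(m, w)` -/
noncomputable def zt (w : List ℕ+) (m : ℕ) : ℝ := mzv (m :: w.map fun a : ℕ+ => (a : ℕ))

lemma blocks_of {b : ℕ} (hb : 2 ≤ b) (x : ℕ → ℝ) (κ : ℝ)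
    (h : ∀ C : ℝ, ∃ n0 : ℕ, ∀ n : ℕ, n0 ≤ n → ∀ i j : ℕ, (i : ℝ) ≤ C * n → (j : ℝ) ≤ C * n →
      κ * n ≤ max i j → i ≠ j → ∃ l : ℕ, l < n ∧ digit b (x n) (i + l) ≠ digit b (x n) (j + l))
    (C : ℝ) : ∃ n0 : ℕ, ∀ n : ℕ, n0 ≤ n → C * n < dblocks b (x n) n := by
  set A : ℕ := ⌈|κ|⌉₊ with hA
  set E : ℕ := ⌈|C|⌉₊ + 1 with hE
  obtain ⟨n0, hn0⟩ := h (A + E : ℕ)
  refine ⟨n0 + 1, fun n hn => ?_⟩
  have hn1 : 1 ≤ n := by omega
  have hnr : (1 : ℝ) ≤ n := by exact_mod_cast hn1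
  have hκA : κ ≤ A := (le_abs_self κ).trans (Nat.le_ceil _)
  have hfin : (Set.range fun i : ℕ => fun j : Fin n => digit b (x n) (i + j)).Finite := by
    refine (Set.Finite.pi' fun _ : Fin n => Set.finite_Icc (0 : ℤ) b).subset ?_
    rintro _ ⟨i, rfl⟩ j
    exact ⟨(digit_mem hb _ _).1, (digit_mem hb _ _).2.le⟩
  have hsub : (fun i : ℕ => fun j : Fin n => digit b (x n) (i + j)) ''
      (Finset.Ico (A * n) ((A + E) * n) : Finset ℕ) ⊆
      Set.range fun i : ℕ => fun j : Fin n => digit b (x n) (i + j) := Set.image_subset_range _ _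
  have hinj : Set.InjOn (fun i : ℕ => fun j : Fin n => digit b (x n) (i + j))
      (Finset.Ico (A * n) ((A + E) * n) : Finset ℕ) := by
    intro i hi j hj hij
    by_contra hne
    rw [Finset.mem_coe, Finset.mem_Ico] at hi hj
    have hi2 : (i : ℝ) ≤ ((A + E : ℕ) : ℝ) * n := by exact_mod_cast hi.2.le
    have hj2 : (j : ℝ) ≤ ((A + E : ℕ) : ℝ) * n := by exact_mod_cast hj.2.le
    obtain ⟨l, hl, hd⟩ := hn0 n (by omega) i j hi2 hj2 (by
      have h1 : ((A * n : ℕ) : ℝ) ≤ i := by exact_mod_cast hi.1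
      have h2 : (i : ℝ) ≤ ((max i j : ℕ) : ℝ) := by exact_mod_cast le_max_left i j
      refine le_trans ?_ h2
      push_cast at h1
      refine le_trans ?_ h1
      gcongr) hne
    exact hd (congrFun hij ⟨l, hl⟩)
  have h1 := Set.ncard_le_ncard hsub hfin
  rw [Set.ncard_image_of_injOn hinj, Set.ncard_coe_finset, Nat.card_Ico] at h1
  have h2 : (A + E) * n - A * n = E * n := by
    rw [add_mul]
    omega
  rw [h2] at h1
  have h3 : ((E * n : ℕ) : ℝ) ≤ dblocks b (x n) n := by exact_mod_cast h1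
  refine lt_of_lt_of_le ?_ h3
  have h4 : C < E := by
    rw [hE]
    push_cast
    have := (le_abs_self C).trans (Nat.le_ceil |C|)
    linarith
  push_cast
  nlinarith

variable {σ : Type} [Fintype σ] [DecidableEq σ] (off : σ → ℕ) (tl : σ → List ℕ+)

/-- linear forms with `S`-unit coefficients in `ζ(k - off, tl)` -/
theorem wt_forms (hinj : Function.Injective fun s => (off s, tl s)) {S : Finset ℕ}
    (hS : ∀ p ∈ S, p.Prime) : ∃ K : ℕ, 2 ≤ K ∧ ∀ (R : ℕ) (C B : ℝ), 1 < B →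
    ∃ k0 : ℕ, ∀ k : ℕ, k0 ≤ k → ∀ D : σ → ℚ, (∀ s, Sm S R (C * k) (D s)) → (∃ s, D s ≠ 0) →
    ∀ (p : ℤ) (i : σ), (B ^ k)⁻¹ * min 1 (|(D i : ℝ)| / (K : ℝ) ^ k) <
      |∑ s, (D s : ℝ) * zt (tl s) (k - off s) - p| := by
  set N : ℕ := Finset.univ.sup off with hN
  have hoN : ∀ s, off s ≤ N := fun s => Finset.le_sup (f := off) (Finset.mem_univ s)
  have hinj' : Function.Injective fun s => (N - off s, tl s) := by
    intro s s' h
    apply hinj
    have h1 := (Prod.ext_iff.1 h).1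
    have h2 := (Prod.ext_iff.1 h).2
    have h3 := hoN s
    have h4 := hoN s'
    simp only [] at h1 h2
    exact Prod.ext (by simp only []; omega) h2
  obtain ⟨K, hK, hmain⟩ := main2 (fun (s : σ) k => hs (tl s) k * ((k : ℚ)⁻¹) ^ (N - off s))
    (fun s n => mzv ((n + (N - off s)) :: (tl s).map fun a : ℕ+ => (a : ℕ)))
    (tail_mz (fun s => N - off s) tl) hS (ind_hs _ _ hinj' S hS)
  refine ⟨K, hK, fun R C B hB => ?_⟩
  obtain ⟨n0, hn0⟩ := hmain R (2 * |C|) B hB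
  refine ⟨n0 + 2 * N, fun k hk D hD hD0 p i => ?_⟩
  obtain ⟨n, rfl⟩ : ∃ n, k = n + N := ⟨k - N, by omega⟩
  have hnN : N ≤ n := by omega
  have hnr : (N : ℝ) ≤ n := by exact_mod_cast hnN
  have h1 := hn0 n (by omega) D (fun s => (hD s).mono (by
    push_cast
    have := abs_nonneg C
    have h3 := le_abs_self C
    have h4 : (0 : ℝ) ≤ n := Nat.cast_nonneg n
    have h5 : (0 : ℝ) ≤ N := Nat.cast_nonneg N
    nlinarith)) hD0 p i
  have e1 : ∀ s, (n + N - off s) = n + (N - off s) := fun s => by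
    have := hoN s
    omega
  simp only [zt, e1]
  refine lt_of_le_of_lt ?_ h1
  have hK1 : (1 : ℝ) ≤ K := by exact_mod_cast (by omega : 1 ≤ K)
  have h2 : B ^ n ≤ B ^ (n + N) := pow_le_pow_right₀ hB.le (by omega)
  have h3 : (K : ℝ) ^ n ≤ (K : ℝ) ^ (n + N) := pow_le_pow_right₀ hK1 (by omega)
  have hB0 : 0 < B ^ n := by positivity
  have hK0 : 0 < (K : ℝ) ^ n := by positivity
  gcongr

/-- no long word of digits occurs twice -/
theorem wt_digits (hinj : Function.Injective fun s => (off s, tl s)) {b : ℕ} (hb : 2 ≤ b) :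
    ∃ κ : ℝ, 0 ≤ κ ∧ ∀ ε C : ℝ, 0 < ε → ∃ k0 : ℕ, ∀ k : ℕ, k0 ≤ k → ∀ (s s' : σ) (i j : ℕ),
      (i : ℝ) ≤ C * k → (j : ℝ) ≤ C * k → κ * k ≤ max i j → (s, i) ≠ (s', j) →
      ∃ l : ℕ, (l : ℝ) < ε * k ∧
        digit b (zt (tl s) (k - off s)) (i + l) ≠ digit b (zt (tl s') (k - off s')) (j + l) := by
  set N : ℕ := Finset.univ.sup off with hN
  have hoN : ∀ s, off s ≤ N := fun s => Finset.le_sup (f := off) (Finset.mem_univ s)
  have hinj' : Function.Injective fun s => (N - off s, tl s) := by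
    intro s s' h
    apply hinj
    have h1 := (Prod.ext_iff.1 h).1
    have h2 := (Prod.ext_iff.1 h).2
    have h3 := hoN s
    have h4 := hoN s'
    simp only [] at h1 h2
    exact Prod.ext (by simp only []; omega) h2
  obtain ⟨κ, hκ⟩ := digits (fun (s : σ) k => hs (tl s) k * ((k : ℚ)⁻¹) ^ (N - off s))
    (fun s n => mzv ((n + (N - off s)) :: (tl s).map fun a : ℕ+ => (a : ℕ)))
    (tail_mz (fun s => N - off s) tl) hb (ind_hs _ _ hinj' _
      fun p hp => Nat.prime_of_mem_primeFactors hp)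
  refine ⟨|κ|, abs_nonneg κ, fun ε C hε => ?_⟩
  obtain ⟨n0, hn0⟩ := hκ ε (2 * |C|) hε
  refine ⟨n0 + 2 * N, fun k hk s s' i j hi hj hm hne => ?_⟩
  obtain ⟨n, rfl⟩ : ∃ n, k = n + N := ⟨k - N, by omega⟩
  have hnN : N ≤ n := by omega
  have hnr : (N : ℝ) ≤ n := by exact_mod_cast hnN
  have h4 : (0 : ℝ) ≤ n := Nat.cast_nonneg n
  have h5 : (0 : ℝ) ≤ N := Nat.cast_nonneg N
  have hC : C * ((n + N : ℕ) : ℝ) ≤ 2 * |C| * n := by
    push_cast
    have := abs_nonneg C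
    have h3 := le_abs_self C
    nlinarith
  obtain ⟨l, hl, hd⟩ := hn0 n (by omega) s s' i j (hi.trans hC) (hj.trans hC) (by
    refine le_trans ?_ hm
    push_cast
    have := abs_nonneg κ
    have h3 := le_abs_self κ
    nlinarith) hne
  have e1 : ∀ s, (n + N - off s) = n + (N - off s) := fun s => by
    have := hoN s
    omega
  refine ⟨l, hl.trans_le ?_, ?_⟩
  · push_cast
    nlinarith
  · simp only [zt, e1]
    exact hd

/-- many blocks -/
theorem wt_blocks (w : List ℕ+) (o : ℕ) {b : ℕ} (hb : 2 ≤ b) (C : ℝ) :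
    ∃ k0 : ℕ, ∀ k : ℕ, k0 ≤ k → C * k < dblocks b (zt w (k - o)) k := by
  obtain ⟨κ, -, hκ⟩ := wt_digits (fun _ : Fin 1 => o) (fun _ => w)
    (fun a b _ => Subsingleton.elim a b) hb
  refine blocks_of hb (fun k => zt w (k - o)) κ (fun C => ?_) C
  obtain ⟨k0, hk0⟩ := hκ 1 C one_pos
  refine ⟨k0, fun k hk i j hi hj hm hne => ?_⟩
  obtain ⟨l, hl, hd⟩ := hk0 k hk 0 0 i j hi hj hm (fun h => hne (Prod.ext_iff.1 h).2)
  rw [one_mul] at hl
  exact ⟨l, by exact_mod_cast hl, hd⟩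

end Pool.Agent.R473.DW
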