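import Mathlib
import Pool.Agent.R473.DW.Mzw
import Pool.Agent.TH883.Zg.Mzv

set_option autoImplicit false

/-!
# Polynomials in Dirichlet series that are independent at the primes: forms, digits
-/

namespace Pool.Agent.R473.DW

open Pool.Agent.Y760.RT Pool.Agent.TH507.ZS Pool.Agent.TH507.HS Pool.Agent.TH883.Zg
  Pool.Agent.R473.TB Filter

lemma RB_sub {f g : ArithmeticFunction ℚ} {F G : ℕ → ℝ} (hf : RB f F) (hg : RB g G) :
    RB (f - g) (fun n => F n - G n) := by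
  obtain ⟨hf1, a, ha⟩ := hf
  obtain ⟨hg1, b, hb⟩ := hg
  obtain ⟨c, hc⟩ := dser_sub hf1 hg1
  exact ⟨pb_sub hf1 hg1, a + b + c, fun n hn => by
    rw [hc n (by omega), ha n (by omega), hb n (by omega)]⟩

lemma RB_zero : RB 0 (fun _ => 0) := by
  have h := RB_sub RB.one RB.one
  simpa using h

lemma RB_add {f g : ArithmeticFunction ℚ} {F G : ℕ → ℝ} (hf : RB f F) (hg : RB g G) :
    RB (f + g) (fun n => F n + G n) := by
  have h := RB_sub hf (RB_sub RB_zero hg)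
  simpa using h

lemma RB_smul {f : ArithmeticFunction ℚ} {F : ℕ → ℝ} (c : ℚ) (hf : RB f F) :
    RB (algebraMap ℚ (ArithmeticFunction ℚ) c * f) (fun n => (c : ℝ) * F n) := by
  have happ : ∀ k, (algebraMap ℚ (ArithmeticFunction ℚ) c * f) k = c * f k := by
    intro k
    rw [← Algebra.smul_def]
    rfl
  obtain ⟨⟨A, hA⟩, a, ha⟩ := hf
  refine ⟨⟨A * (⌈|(c : ℝ)|⌉₊ + 1), fun k hk => ?_⟩, a, fun n hn => ?_⟩
  · have h1 : (1 : ℝ) ≤ k := by exact_mod_cast hk
    rw [happ]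
    push_cast
    rw [abs_mul]
    have h2 : |(c : ℝ)| ≤ (⌈|(c : ℝ)|⌉₊ : ℝ) := Nat.le_ceil _
    have h3 : (k : ℝ) ^ A ≤ (k : ℝ) ^ (A * (⌈|(c : ℝ)|⌉₊ + 1)) :=
      pow_le_pow_right₀ h1 (by nlinarith)
    calc |(c : ℝ)| * |(f k : ℝ)| ≤ ((⌈|(c : ℝ)|⌉₊ : ℝ) + 1) * (A * (k : ℝ) ^ A) := by
          gcongr
          · linarith
          · exact hA k hk
      _ ≤ ((⌈|(c : ℝ)|⌉₊ : ℝ) + 1) * (A * (k : ℝ) ^ (A * (⌈|(c : ℝ)|⌉₊ + 1))) := by gcongr
      _ = _ := by ring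
  · show dser _ n = (c : ℝ) * F n
    rw [← ha n hn, dser, dser, ← tsum_mul_left]
    refine tsum_congr fun k => ?_
    rw [happ]
    push_cast
    ring

variable {J : Type} [Fintype J] (g : J → ArithmeticFunction ℚ)

omit [Fintype J] in
lemma RB_aeval (hg : ∀ j, PB (g j)) (P : MvPolynomial J ℚ) :
    RB (MvPolynomial.aeval g P) (fun n => MvPolynomial.aeval (fun j => dser (g j) n) P) := by
  induction P using MvPolynomial.induction_on with
  | C a =>
    have h := RB_smul a RB.one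
    simpa [MvPolynomial.aeval_C] using h
  | add p q hp hq =>
    have h := RB_add hp hq
    simpa only [map_add] using h
  | mul_X p j hp =>
    have h := hp.mul (⟨hg j, 0, fun n _ => rfl⟩ : RB (g j) (fun n => dser (g j) n))
    simpa only [map_mul, MvPolynomial.aeval_X] using h

lemma tail_RB {f : ArithmeticFunction ℚ} {F : ℕ → ℝ} (h : RB f F) :
    Tail (fun k => (f k : ℝ)) F := by
  obtain ⟨⟨A, hA⟩, n1, hn1⟩ := h
  intro M
  obtain ⟨B, hB⟩ := tail_dser hA M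
  refine ⟨B, ?_⟩
  filter_upwards [hB, eventually_ge_atTop n1] with n hn hn'
  rw [← hn1 n hn']
  exact hn

/-- independence of `1, P_s` gives independence of the coefficients away from `S` -/
lemma ind_alg {σ : Type} [Fintype σ] (P : σ → MvPolynomial J ℚ)
    (hP : ∀ (v : σ → ℚ) (c : ℚ), ∑ s, v s • P s = MvPolynomial.C c → v = 0)
    (hpr : ∀ Y : ℕ, ∀ c : J → ℚ, (∀ q : ℕ, q.Prime → Y ≤ q → ∑ j, c j * g j q = 0) → c = 0)
    (S : Finset ℕ) (hS : ∀ p ∈ S, p.Prime) (v : σ → ℚ)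
    (hv : ∀ k, 2 ≤ k → (∀ p ∈ S, ¬ p ∣ k) → ∑ s, v s * (MvPolynomial.aeval g (P s)) k = 0) :
    v = 0 := by
  classical
  set c1 : ℚ := ∑ s, v s * (MvPolynomial.aeval g (P s)) 1 with hc1
  have hsum : ∀ (T : Finset σ) (k : ℕ),
      (∑ s ∈ T, v s • MvPolynomial.aeval g (P s)) k =
        ∑ s ∈ T, v s * (MvPolynomial.aeval g (P s)) k := by
    intro T k
    induction T using Finset.induction_on with
    | empty => rfl
    | insert a s ha ih =>
      rw [Finset.sum_insert ha, Finset.sum_insert ha, ArithmeticFunction.add_apply, ih]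
      rfl
  set Q : MvPolynomial J ℚ := ∑ s, v s • P s - MvPolynomial.C c1 with hQ
  have hQa : ∀ k, MvPolynomial.aeval g Q k =
      ∑ s, v s * (MvPolynomial.aeval g (P s)) k -
        (algebraMap ℚ (ArithmeticFunction ℚ) c1) k := by
    intro k
    rw [hQ, map_sub, map_sum, MvPolynomial.aeval_C]
    rw [show (∑ s, MvPolynomial.aeval g (v s • P s)) = ∑ s, v s • MvPolynomial.aeval g (P s) from
      Finset.sum_congr rfl fun s _ => by rw [map_smul]]
    rw [← hsum]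
    rw [sub_eq_add_neg, ArithmeticFunction.add_apply, ArithmeticFunction.neg_apply]
    exact (sub_eq_add_neg _ _).symm
  have hN : 1 ≤ ∏ p ∈ S, p := Finset.prod_pos fun p hp => (hS p hp).pos
  have h0 : Q = 0 := by
    refine alg_ind g hpr (∏ p ∈ S, p) hN Q.totalDegree Q le_rfl fun k hk hkN => ?_
    rw [hQa]
    rcases Nat.eq_or_lt_of_le hk with h1 | h1
    · rw [← h1, ArithmeticFunction.algebraMap_apply_one, ← hc1]
      exact sub_self _
    · rw [hv k h1 (fun p hp hpk => by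
        have h2 : p ∣ ∏ p ∈ S, p := Finset.dvd_prod_of_mem _ hp
        have h3 := Nat.dvd_gcd hpk h2
        rw [hkN] at h3
        exact (hS p hp).one_lt.ne' (Nat.dvd_one.1 h3))]
      have h2 : (algebraMap ℚ (ArithmeticFunction ℚ) c1) k = 0 := by
        rw [Algebra.algebraMap_eq_smul_one]
        show c1 * (1 : ArithmeticFunction ℚ) k = 0
        rw [ArithmeticFunction.one_apply_ne (by omega), mul_zero]
      rw [h2, sub_zero]
  exact hP v c1 (sub_eq_zero.1 h0)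

/-- **polynomials in Dirichlet series: linear forms with `S`-unit coefficients** -/
theorem alg_forms (hg : ∀ j, PB (g j))
    (hpr : ∀ Y : ℕ, ∀ c : J → ℚ, (∀ q : ℕ, q.Prime → Y ≤ q → ∑ j, c j * g j q = 0) → c = 0)
    {σ : Type} [Fintype σ] [DecidableEq σ] (P : σ → MvPolynomial J ℚ)
    (hP : ∀ (v : σ → ℚ) (c : ℚ), ∑ s, v s • P s = MvPolynomial.C c → v = 0) {S : Finset ℕ}
    (hS : ∀ p ∈ S, p.Prime) : ∃ K : ℕ, 2 ≤ K ∧ ∀ (R : ℕ) (C B : ℝ), 1 < B →
    ∃ n0 : ℕ, ∀ n : ℕ, n0 ≤ n → ∀ D : σ → ℚ, (∀ s, Sm S R (C * n) (D s)) → (∃ s, D s ≠ 0) →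
    ∀ (p : ℤ) (i : σ), (B ^ n)⁻¹ * min 1 (|(D i : ℝ)| / (K : ℝ) ^ n) <
      |∑ s, (D s : ℝ) * MvPolynomial.aeval (fun j => dser (g j) n) (P s) - p| :=
  main2 (fun s k => MvPolynomial.aeval g (P s) k)
    (fun s n => MvPolynomial.aeval (fun j => dser (g j) n) (P s))
    (fun s => tail_RB (RB_aeval g hg (P s))) hS (ind_alg g P hP hpr S hS)

/-- **polynomials in Dirichlet series: digits** -/
theorem alg_digits (hg : ∀ j, PB (g j))
    (hpr : ∀ Y : ℕ, ∀ c : J → ℚ, (∀ q : ℕ, q.Prime → Y ≤ q → ∑ j, c j * g j q = 0) → c = 0)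
    {σ : Type} [Fintype σ] [DecidableEq σ] (P : σ → MvPolynomial J ℚ)
    (hP : ∀ (v : σ → ℚ) (c : ℚ), ∑ s, v s • P s = MvPolynomial.C c → v = 0) {b : ℕ}
    (hb : 2 ≤ b) : ∃ κ : ℝ, ∀ ε C : ℝ, 0 < ε → ∃ n0 : ℕ, ∀ n : ℕ, n0 ≤ n →
    ∀ (s s' : σ) (i j : ℕ), (i : ℝ) ≤ C * n → (j : ℝ) ≤ C * n → κ * n ≤ max i j →
    (s, i) ≠ (s', j) → ∃ l : ℕ, (l : ℝ) < ε * n ∧
      digit b (MvPolynomial.aeval (fun j => dser (g j) n) (P s)) (i + l) ≠
      digit b (MvPolynomial.aeval (fun j => dser (g j) n) (P s')) (j + l) :=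
  digits (fun s k => MvPolynomial.aeval g (P s) k)
    (fun s n => MvPolynomial.aeval (fun j => dser (g j) n) (P s))
    (fun s => tail_RB (RB_aeval g hg (P s))) hb
    (ind_alg g P hP hpr _ fun _ hp => Nat.prime_of_mem_primeFactors hp)

/-- **polynomials in Dirichlet series: blocks** -/
theorem alg_blocks (hg : ∀ j, PB (g j))
    (hpr : ∀ Y : ℕ, ∀ c : J → ℚ, (∀ q : ℕ, q.Prime → Y ≤ q → ∑ j, c j * g j q = 0) → c = 0)
    (P : MvPolynomial J ℚ) (hP : ∀ c : ℚ, P ≠ MvPolynomial.C c) {b : ℕ} (hb : 2 ≤ b) (C : ℝ) :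
    ∃ n0 : ℕ, ∀ n : ℕ, n0 ≤ n →
      C * n < dblocks b (MvPolynomial.aeval (fun j => dser (g j) n) P) n := by
  obtain ⟨n0, hn0⟩ := many_blocks (fun (_ : Fin 1) k => MvPolynomial.aeval g P k)
    (fun _ n => MvPolynomial.aeval (fun j => dser (g j) n) P)
    (fun _ => tail_RB (RB_aeval g hg P)) hb
    (ind_alg g (fun _ : Fin 1 => P) (fun v c hv => by
      rw [Fin.sum_univ_one] at hv
      funext i
      fin_cases i
      by_contra h0
      simp only [Fin.zero_eta, Fin.isValue, Pi.zero_apply] at h0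
      apply hP ((v 0)⁻¹ * c)
      rw [map_mul, ← hv, MvPolynomial.smul_eq_C_mul, ← mul_assoc, ← map_mul,
        inv_mul_cancel₀ h0, map_one, one_mul]) hpr _ fun _ hp => Nat.prime_of_mem_primeFactors hp) C
  exact ⟨n0, fun n hn => hn0 n hn 0⟩

end Pool.Agent.R473.DW
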