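import Mathlib
import Pool.Agent.R473.DW.Alg

set_option autoImplicit false

/-!
# Polynomials in multiple zeta values with one large argument: forms, digits, blocks
-/

namespace Pool.Agent.R473.DW

open Pool.Agent.Y760.RT Pool.Agent.TH507.ZS Pool.Agent.TH507.HS Pool.Agent.TH883.Zg
  Pool.Agent.R473.TB Filter

/-- the arithmetic functions of `n ↦ ζ(n + j, w)` -/
noncomputable def gz {Λ : Finset (List ℕ+)} {h : ℕ} (x : Fin (h + 1) × Λ) : ArithmeticFunction ℚ :=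
  af (fun k => hs x.2.1 k / (k : ℚ) ^ (x.1 : ℕ))

variable {Λ : Finset (List ℕ+)} {h : ℕ}

lemma gz_apply (j : Fin (h + 1) × Λ) (k : ℕ) (hk : 1 ≤ k) :
    gz j k = hs j.2.1 k / (k : ℚ) ^ (j.1 : ℕ) := af_apply _ hk

lemma gz_pb (x : Fin (h + 1) × Λ) : PB (gz x) := by
  refine ⟨x.2.1.length + 1, fun k hk => ?_⟩
  have h1 : (1 : ℝ) ≤ k := by exact_mod_cast hk
  rw [gz_apply x k hk]
  push_cast
  rw [abs_div, abs_of_pos (by positivity : (0 : ℝ) < (k : ℝ) ^ (x.1 : ℕ))]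
  refine (div_le_self (abs_nonneg _) (one_le_pow₀ h1)).trans ((hs_bound _ k hk).trans ?_)
  have h3 : (1 : ℝ) ≤ (x.2.1.length : ℝ) + 1 := by
    have : (0 : ℝ) ≤ (x.2.1.length : ℝ) := Nat.cast_nonneg _
    linarith only [this]
  calc (k : ℝ) ^ x.2.1.length ≤ (k : ℝ) ^ (x.2.1.length + 1) :=
        pow_le_pow_right₀ h1 (by omega)
    _ ≤ ((x.2.1.length : ℝ) + 1) * (k : ℝ) ^ (x.2.1.length + 1) :=
        le_mul_of_one_le_left (by positivity) h3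

lemma gz_prime (Y : ℕ) (c : Fin (h + 1) × Λ → ℚ)
    (hc : ∀ q : ℕ, q.Prime → Y ≤ q → ∑ j, c j * gz j q = 0) : c = 0 :=
  hs_prime Λ h Y c fun q hq hqY => by
    rw [← hc q hq hqY]
    exact Finset.sum_congr rfl fun j _ => by rw [gz_apply j q hq.one_lt.le]

lemma gz_dser (n : ℕ) : (fun j : Fin (h + 1) × Λ => dser (gz j) n) =
    fun j : Fin (h + 1) × Λ => zt j.2.1 (n + j.1) := by
  funext j
  rw [zt, mzv_dser, dser, dser]
  refine tsum_congr fun k => ?_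
  rw [gz_apply j (k + 1) (by omega)]
  push_cast
  rw [pow_add, div_div, mul_comm (((k : ℝ) + 1) ^ (j.1 : ℕ))]

section

variable {σ : Type} [Fintype σ] [DecidableEq σ] (P : σ → MvPolynomial (Fin (h + 1) × Λ) ℚ)
  (hP : ∀ (v : σ → ℚ) (c : ℚ), ∑ s, v s • P s = MvPolynomial.C c → v = 0)

include hP

/-- **polynomials in MZVs: linear forms with `S`-unit coefficients** -/
theorem mz_forms {S : Finset ℕ} (hS : ∀ p ∈ S, p.Prime) :
    ∃ K : ℕ, 2 ≤ K ∧ ∀ (R : ℕ) (C B : ℝ), 1 < B →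
    ∃ n0 : ℕ, ∀ n : ℕ, n0 ≤ n → ∀ D : σ → ℚ, (∀ s, Sm S R (C * n) (D s)) → (∃ s, D s ≠ 0) →
    ∀ (p : ℤ) (i : σ), (B ^ n)⁻¹ * min 1 (|(D i : ℝ)| / (K : ℝ) ^ n) <
      |∑ s, (D s : ℝ) * MvPolynomial.aeval (fun j : Fin (h + 1) × Λ => zt j.2.1 (n + j.1)) (P s) -
        p| := by
  have h1 := alg_forms (gz (Λ := Λ) (h := h)) gz_pb gz_prime P hP hS
  simp only [gz_dser] at h1
  exact h1

/-- **polynomials in MZVs: digits** -/
theorem mz_digits {b : ℕ} (hb : 2 ≤ b) : ∃ κ : ℝ, ∀ ε C : ℝ, 0 < ε →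
    ∃ n0 : ℕ, ∀ n : ℕ, n0 ≤ n →
    ∀ (s s' : σ) (i j : ℕ), (i : ℝ) ≤ C * n → (j : ℝ) ≤ C * n → κ * n ≤ max i j →
    (s, i) ≠ (s', j) → ∃ l : ℕ, (l : ℝ) < ε * n ∧
      digit b (MvPolynomial.aeval (fun j : Fin (h + 1) × Λ => zt j.2.1 (n + j.1)) (P s)) (i + l) ≠
      digit b (MvPolynomial.aeval (fun j : Fin (h + 1) × Λ => zt j.2.1 (n + j.1)) (P s'))
        (j + l) := by
  have h1 := alg_digits (gz (Λ := Λ) (h := h)) gz_pb gz_prime P hP hb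
  simp only [gz_dser] at h1
  exact h1

end

/-- **polynomials in MZVs: blocks** -/
theorem mz_blocks (P : MvPolynomial (Fin (h + 1) × Λ) ℚ) (hP : ∀ c : ℚ, P ≠ MvPolynomial.C c)
    {b : ℕ} (hb : 2 ≤ b) (C : ℝ) : ∃ n0 : ℕ, ∀ n : ℕ, n0 ≤ n →
    C * n < dblocks b
      (MvPolynomial.aeval (fun j : Fin (h + 1) × Λ => zt j.2.1 (n + j.1)) P) n := by
  have h1 := alg_blocks (gz (Λ := Λ) (h := h)) gz_pb gz_prime P hP hb C
  simp only [gz_dser] at h1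
  exact h1

end Pool.Agent.R473.DW
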