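import Mathlib
import Pool.Agent.R473.DW.Mzw
import Pool.Agent.Y760.ST.Fin

set_option autoImplicit false

/-!
# Multiple zeta values at the arguments `a n + b`: forms, digits, blocks
-/

namespace Pool.Agent.R473.DW

open Pool.Agent.Y760.RT Pool.Agent.TH507.ZS Pool.Agent.TH507.WD Pool.Agent.Y760.ST
  Pool.Agent.R473.TB Filter

/-- coefficient functions of combinations of words -/
noncomputable def cw (k : ℕ) : (List (ℕ+ × ℕ) →₀ ℚ) →ₗ[ℚ] ℚ :=
  Finsupp.linearCombination ℚ fun w => cf 1 w k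

lemma cw_sum {Λ : Finset (List (ℕ+ × ℕ))} {y : List (ℕ+ × ℕ) →₀ ℚ} (h : y.support ⊆ Λ) (k : ℕ) :
    cw k y = ∑ w ∈ Λ, y w * cf 1 w k := by
  rw [cw, Finsupp.linearCombination_apply, Finsupp.sum]
  rw [Finset.sum_subset h fun w _ hw => by rw [Finsupp.notMem_support_iff.1 hw, zero_smul]]
  rfl

lemma tail_cw (y : List (ℕ+ × ℕ) →₀ ℚ) : Tail (fun k => ((cw k y : ℚ) : ℝ))
    (fun n => valW n y) := by
  have h1 : Tail (fun k => ∑ w ∈ y.support, (y w : ℝ) * (cf 1 w k : ℝ))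
      (fun n => ∑ w ∈ y.support, (y w : ℝ) * mz (ar n w)) :=
    tail_sum y.support (fun w k => (y w : ℝ) * (cf 1 w k : ℝ))
      (fun w n => (y w : ℝ) * mz (ar n w)) fun w _ => (tail_word w).mul _
  have h2 : (fun k => ((cw k y : ℚ) : ℝ)) =
      fun k => ∑ w ∈ y.support, (y w : ℝ) * (cf 1 w k : ℝ) := by
    funext k
    rw [cw_sum (Finset.Subset.refl _)]
    push_cast
    rfl
  have h3 : (fun n => valW n y) = fun n => ∑ w ∈ y.support, (y w : ℝ) * mz (ar n w) := by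
    funext n
    unfold valW
    rw [Finsupp.linearCombination_apply, Finsupp.sum]
    exact Finset.sum_congr rfl fun w _ => by rw [Rat.smul_def]
  rw [h2, h3]
  exact h1

lemma ind_w {σ : Type} [Fintype σ] (y : σ → List (ℕ+ × ℕ) →₀ ℚ)
    (hy : ∀ (v : σ → ℚ) (c : ℚ), ∑ s, v s • y s = Finsupp.single [] c → v = 0)
    (S : Finset ℕ) (hS : ∀ p ∈ S, p.Prime) (v : σ → ℚ)
    (hv : ∀ k, 2 ≤ k → (∀ p ∈ S, ¬ p ∣ k) → ∑ s, v s * cw k (y s) = 0) : v = 0 := by
  classical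
  set c1 : ℚ := ∑ s, v s * cw 1 (y s) with hc1
  set z : List (ℕ+ × ℕ) →₀ ℚ := ∑ s, v s • y s - Finsupp.single [] c1 with hz
  have hcw : ∀ k, cw k z = ∑ s, v s * cw k (y s) - c1 * (if k = 1 then 1 else 0) := by
    intro k
    rw [hz, map_sub, map_sum]
    congr 1
    · exact Finset.sum_congr rfl fun s _ => by rw [map_smul, smul_eq_mul]
    · rw [cw, Finsupp.linearCombination_single, smul_eq_mul, Pool.Agent.TH507.WD.cf, T_nil]
  have h0 : z = 0 := by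
    by_contra hne
    obtain ⟨w, hw⟩ := Finsupp.support_nonempty_iff.2 hne
    obtain ⟨T, hT0, hT⟩ := Pool.Agent.Y93.ST.nvw z.support 1
    have hN : 1 ≤ ∏ p ∈ S, p := Finset.prod_pos fun p hp => (hS p hp).pos
    obtain ⟨K, hK1, -, hco, hKne⟩ := hT (max T (Real.log ((∏ p ∈ S, p : ℕ) : ℝ))) (le_max_left _ _)
      (∏ p ∈ S, p) hN (by rw [one_mul]; exact le_max_right _ _) z
      ⟨w, hw, Finsupp.mem_support_iff.1 hw⟩
    apply hKne
    rw [← cw_sum (Finset.Subset.refl _), hcw]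
    rcases Nat.eq_or_lt_of_le hK1 with h1 | h1
    · rw [← h1, if_pos rfl, mul_one, ← hc1, sub_self]
    · rw [if_neg (by omega), mul_zero, sub_zero]
      refine hv K h1 fun p hp hpK => ?_
      have h2 : p ∣ ∏ p ∈ S, p := Finset.dvd_prod_of_mem _ hp
      have h3 := Nat.dvd_gcd h2 hpK
      rw [hco] at h3
      exact (hS p hp).one_lt.ne' (Nat.dvd_one.1 h3)
  exact hy v c1 (sub_eq_zero.1 h0)

section

variable {σ : Type} [Fintype σ] [DecidableEq σ] (x : σ → List (List (ℕ+ × ℕ)) →₀ ℚ)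
    (hx : ∀ (v : σ → ℚ) (c : ℚ), ∑ s, v s • expand (x s) = Finsupp.single [] c → v = 0)

include hx

/-- **words: linear forms with `S`-unit coefficients** -/
theorem wd_forms {S : Finset ℕ} (hS : ∀ p ∈ S, p.Prime) :
    ∃ K : ℕ, 2 ≤ K ∧ ∀ (R : ℕ) (C B : ℝ), 1 < B →
    ∃ n0 : ℕ, ∀ n : ℕ, n0 ≤ n → ∀ D : σ → ℚ, (∀ s, Sm S R (C * n) (D s)) → (∃ s, D s ≠ 0) →
    ∀ (p : ℤ) (i : σ), (B ^ n)⁻¹ * min 1 (|(D i : ℝ)| / (K : ℝ) ^ n) <
      |∑ s, (D s : ℝ) * valP n (x s) - p| := by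
  obtain ⟨K, hK, hmain⟩ := main2 (fun s k => cw k (expand (x s)))
    (fun s n => valW n (expand (x s))) (fun s => tail_cw _) hS
    (ind_w (fun s => expand (x s)) hx S hS)
  refine ⟨K, hK, fun R C B hB => ?_⟩
  obtain ⟨n0, hn0⟩ := hmain R C B hB
  refine ⟨n0 + 2, fun n hn D hD hD0 p i => ?_⟩
  have h1 := hn0 n (by omega) D hD hD0 p i
  have h2 : ∀ s, valP n (x s) = valW n (expand (x s)) := fun s => valP_eq (by omega) _
  simp only [h2]
  exact h1

/-- **words: digits** -/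
theorem wd_digits {b : ℕ} (hb : 2 ≤ b) : ∃ κ : ℝ, ∀ ε C : ℝ, 0 < ε →
    ∃ n0 : ℕ, ∀ n : ℕ, n0 ≤ n →
    ∀ (s s' : σ) (i j : ℕ), (i : ℝ) ≤ C * n → (j : ℝ) ≤ C * n → κ * n ≤ max i j →
    (s, i) ≠ (s', j) → ∃ l : ℕ, (l : ℝ) < ε * n ∧
      digit b (valP n (x s)) (i + l) ≠ digit b (valP n (x s')) (j + l) := by
  obtain ⟨κ, hmain⟩ := digits (fun s k => cw k (expand (x s)))
    (fun s n => valW n (expand (x s))) (fun s => tail_cw _) hb
    (ind_w (fun s => expand (x s)) hx _ fun _ hp => Nat.prime_of_mem_primeFactors hp)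
  refine ⟨κ, fun ε C hε => ?_⟩
  obtain ⟨n0, hn0⟩ := hmain ε C hε
  refine ⟨n0 + 2, fun n hn s s' i j hi hj hm hne => ?_⟩
  have h1 := hn0 n (by omega) s s' i j hi hj hm hne
  have h2 : ∀ s, valP n (x s) = valW n (expand (x s)) := fun s => valP_eq (by omega) _
  simp only [h2]
  exact h1

end

/-- **words: blocks** -/
theorem wd_blocks (x : List (List (ℕ+ × ℕ)) →₀ ℚ) (hx : ∀ c : ℚ, expand x ≠ Finsupp.single [] c)
    {b : ℕ} (hb : 2 ≤ b) (C : ℝ) :
    ∃ n0 : ℕ, ∀ n : ℕ, n0 ≤ n → C * n < dblocks b (valP n x) n := by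
  obtain ⟨n0, hn0⟩ := many_blocks (fun (_ : Fin 1) k => cw k (expand x))
    (fun _ n => valW n (expand x)) (fun s => tail_cw _) hb
    (ind_w (fun _ : Fin 1 => expand x) (fun v c hv => by
      rw [Fin.sum_univ_one] at hv
      funext i
      fin_cases i
      by_contra h0
      simp only [Fin.zero_eta, Fin.isValue, Pi.zero_apply] at h0
      apply hx ((v 0)⁻¹ * c)
      have h1 := congrArg (fun z => (v 0)⁻¹ • z) hv
      simp only [smul_smul, inv_mul_cancel₀ h0, one_smul, Finsupp.smul_single, smul_eq_mul] at h1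
      exact h1) _ fun _ hp => Nat.prime_of_mem_primeFactors hp) C
  refine ⟨n0 + 2, fun n hn => ?_⟩
  have h1 := hn0 n (by omega) 0
  rw [valP_eq (by omega)]
  exact h1

end Pool.Agent.R473.DW
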