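import Mathlib
import Pool.Agent.R473.DW.Wrd

set_option autoImplicit false

/-!
# Relations with `S`-unit coefficients between products of MZVs are stuffle relations
-/

namespace Pool.Agent.R473.DW

open Pool.Agent.Y760.RT Pool.Agent.TH507.ZS Pool.Agent.TH507.WD Pool.Agent.Y760.ST
  Filter

lemma Sm_comb {S : Finset ℕ} {R m A : ℕ} {X : ℝ} (hX : 0 ≤ X) {D : Fin m → ℚ}
    (hD : ∀ s, Sm S R X (D s)) {a : Fin m → ℤ} (ha : ∀ s, |a s| ≤ A) :
    Sm S (m * R + R * A) X (∑ s, (a s : ℚ) * D s) := by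
  choose α k hα hk hDs using hD
  refine ⟨Fin.addCases (fun i => a (finProdFinEquiv.symm i).1 *
      α (finProdFinEquiv.symm i).1 (finProdFinEquiv.symm i).2) (fun _ => 0),
    Fin.addCases (fun i => k (finProdFinEquiv.symm i).1 (finProdFinEquiv.symm i).2)
      (fun _ _ => 0), ?_, ?_, ?_⟩
  · intro r
    refine Fin.addCases (fun i => ?_) (fun i => ?_) r
    · simp only [Fin.addCases_left]
      rw [abs_mul]
      have h1 := ha (finProdFinEquiv.symm i).1
      have h2 := hα (finProdFinEquiv.symm i).1 (finProdFinEquiv.symm i).2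
      have h3 : |a (finProdFinEquiv.symm i).1| *
          |α (finProdFinEquiv.symm i).1 (finProdFinEquiv.symm i).2| ≤ (A : ℤ) * R :=
        mul_le_mul h1 h2 (abs_nonneg _) (by positivity)
      refine h3.trans ?_
      push_cast
      have h4 : (0 : ℤ) ≤ (m : ℤ) * R := by positivity
      linarith [mul_comm (A : ℤ) R]
    · simp only [Fin.addCases_right]
      rw [abs_zero]
      positivity
  · intro r p hp
    refine Fin.addCases (fun i => ?_) (fun i => ?_) r
    · simp only [Fin.addCases_left]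
      exact hk _ _ p hp
    · simp only [Fin.addCases_right]
      simpa using hX
  · rw [Fin.sum_univ_add]
    simp only [Fin.addCases_left, Fin.addCases_right, Int.cast_zero, zero_mul,
      Finset.sum_const_zero, add_zero]
    rw [← finProdFinEquiv.sum_comp, Fintype.sum_prod_type]
    refine Finset.sum_congr rfl fun s _ => ?_
    rw [hDs s, Finset.mul_sum]
    refine Finset.sum_congr rfl fun r _ => ?_
    rw [Equiv.symm_apply_apply]
    push_cast
    ring

lemma st_nil (u v : List (ℕ+ × ℕ)) : [] ∈ st u v → u = [] ∧ v = [] := by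
  induction u, v using st.induct with
  | case1 v =>
    intro h
    rw [st, List.mem_singleton] at h
    exact ⟨rfl, h.symm⟩
  | case2 x u =>
    intro h
    rw [st, List.mem_singleton] at h
    exact absurd h (by simp)
  | case3 x u y v _ _ _ =>
    intro h
    rw [st] at h
    simp at h

lemma stl_nil (M : List (List (ℕ+ × ℕ))) (hM : ∃ u ∈ M, u ≠ []) : [] ∉ stl M := by
  induction M with
  | nil => simp at hM
  | cons u M ih =>
    intro h
    rw [stl, List.mem_flatMap] at h
    obtain ⟨v, hv, h1⟩ := h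
    obtain ⟨hu, hv0⟩ := st_nil u v h1
    subst hv0
    obtain ⟨u', hu', hne⟩ := hM
    rcases List.mem_cons.1 hu' with h2 | h2
    · exact hne (h2.trans hu)
    · exact ih ⟨u', h2, hne⟩ hv

/-- the coefficient of the word `w` in the stuffle expansion of `∑ D s • M s` -/
noncomputable def Ecoef {m : ℕ} (M : Fin m → List (List (ℕ+ × ℕ))) (D : Fin m → ℚ)
    (w : List (ℕ+ × ℕ)) : ℚ := ∑ s, (((stl (M s)).countP (· = w) : ℕ) : ℚ) * D s

lemma sum_count {Λ : Finset (List (ℕ+ × ℕ))} (L : List (List (ℕ+ × ℕ))) (hL : ∀ w ∈ L, w ∈ Λ)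
    (f : List (ℕ+ × ℕ) → ℝ) :
    ∑ w ∈ Λ, ((L.countP (· = w) : ℕ) : ℝ) * f w = (L.map f).sum := by
  induction L with
  | nil => simp
  | cons u L ih =>
    rw [List.map_cons, List.sum_cons, ← ih fun w hw => hL w (List.mem_cons_of_mem _ hw)]
    have h1 : ∀ w, ((List.countP (· = w) (u :: L) : ℕ) : ℝ) * f w =
        (if u = w then f w else 0) + ((L.countP (· = w) : ℕ) : ℝ) * f w := by
      intro w
      rw [List.countP_cons]
      by_cases h : u = w
      · subst h
        simp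
        ring
      · simp [h]
    rw [Finset.sum_congr rfl fun w _ => h1 w, Finset.sum_add_distrib]
    congr 1
    rw [Finset.sum_ite_eq Λ u, if_pos (hL u List.mem_cons_self)]

/-- the combination is the value of its stuffle expansion -/
lemma form_eq {m n : ℕ} (hn : 2 ≤ n) (M : Fin m → List (List (ℕ+ × ℕ))) (D : Fin m → ℚ)
    {Λ : Finset (List (ℕ+ × ℕ))} (hΛ : ∀ s, ∀ w ∈ stl (M s), w ∈ Λ) :
    ∑ s, (D s : ℝ) * ((M s).map fun u => mz (ar n u)).prod =
      ∑ w ∈ Λ, ((Ecoef M D w : ℚ) : ℝ) * mz (ar n w) := by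
  have h3 : ∀ s, ((M s).map fun u => mz (ar n u)).prod =
      ∑ w ∈ Λ, (((stl (M s)).countP (· = w) : ℕ) : ℝ) * mz (ar n w) := by
    intro s
    rw [mz_prod hn, sum_count (stl (M s)) (hΛ s) fun w => mz (ar n w)]
  simp only [h3, Finset.mul_sum]
  rw [Finset.sum_comm]
  refine Finset.sum_congr rfl fun w _ => ?_
  rw [Ecoef]
  push_cast
  rw [Finset.sum_mul]
  exact Finset.sum_congr rfl fun s _ => by ring

/-- **the gap** -/
theorem gap {m : ℕ} (M : Fin m → List (List (ℕ+ × ℕ))) (hM : ∀ s, ∃ u ∈ M s, u ≠ [])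
    {S : Finset ℕ} (hS : ∀ p ∈ S, p.Prime) :
    ∃ K : ℕ, 2 ≤ K ∧ ∀ (R : ℕ) (C B : ℝ), 1 < B →
    ∃ n0 : ℕ, ∀ n : ℕ, n0 ≤ n → ∀ D : Fin m → ℚ, (∀ s, Sm S R (C * n) (D s)) →
    ∀ (p : ℤ) (w : List (ℕ+ × ℕ)), Ecoef M D w ≠ 0 →
      (B ^ n)⁻¹ * min 1 (|(Ecoef M D w : ℝ)| / (K : ℝ) ^ n) <
      |∑ s, (D s : ℝ) * ((M s).map fun u => mz (ar n u)).prod - p| := by
  classical
  set Λ : Finset (List (ℕ+ × ℕ)) := Finset.univ.biUnion fun s => (stl (M s)).toFinset with hΛ
  have hΛm : ∀ s, ∀ w ∈ stl (M s), w ∈ Λ := fun s w hw =>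
    Finset.mem_biUnion.2 ⟨s, Finset.mem_univ _, List.mem_toFinset.2 hw⟩
  have hΛ0 : ∀ w : Λ, (w : List (ℕ+ × ℕ)) ≠ [] := by
    rintro ⟨w, hw⟩ he
    obtain ⟨s, -, hs⟩ := Finset.mem_biUnion.1 hw
    simp only at he
    rw [he] at hs
    exact stl_nil (M s) (hM s) (List.mem_toFinset.1 hs)
  have hexp : ∀ w : List (ℕ+ × ℕ), expand (Finsupp.single [w] 1) = Finsupp.single w 1 := by
    intro w
    rw [expand, Finsupp.linearCombination_single, one_smul]
    cases w <;> simp [stl, st]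
  have hind : ∀ (v : Λ → ℚ) (c : ℚ), ∑ w, v w • expand (Finsupp.single [(w : List (ℕ+ × ℕ))] 1) =
      Finsupp.single [] c → v = 0 := by
    intro v c hv
    funext u
    have h1 := DFunLike.congr_fun hv (u : List (ℕ+ × ℕ))
    rw [Finsupp.finsetSum_apply, Finsupp.single_eq_of_ne (hΛ0 u), Finset.sum_eq_single u] at h1
    · rw [hexp, Finsupp.smul_apply, Finsupp.single_eq_same, smul_eq_mul, mul_one] at h1
      exact h1
    · intro w _ hw
      rw [hexp, Finsupp.smul_apply, Finsupp.single_eq_of_ne, smul_zero]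
      exact fun he => hw (Subtype.ext he.symm)
    · intro hn
      exact absurd (Finset.mem_univ _) hn
  obtain ⟨K, hK, hmain⟩ := wd_forms (fun w : Λ => Finsupp.single [(w : List (ℕ+ × ℕ))] 1) hind hS
  refine ⟨K, hK, fun R C B hB => ?_⟩
  set A : ℕ := ∑ s, (stl (M s)).length with hA
  obtain ⟨n0, hn0⟩ := hmain (m * R + R * A) |C| B hB
  refine ⟨n0 + 2, fun n hn D hD p w hw => ?_⟩
  have hCn : C * n ≤ |C| * n := by
    have := le_abs_self C
    gcongr
  have hwΛ : w ∈ Λ := by
    by_contra hne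
    apply hw
    rw [Ecoef]
    refine Finset.sum_eq_zero fun s _ => ?_
    have h1 : (stl (M s)).countP (· = w) = 0 := by
      rw [List.countP_eq_zero]
      intro a ha he
      simp only [decide_eq_true_eq] at he
      rw [he] at ha
      exact hne (hΛm s w ha)
    rw [h1, Nat.cast_zero, zero_mul]
  have hD' : ∀ w : Λ, Sm S (m * R + R * A) (|C| * n) (Ecoef M D w) := by
    intro w
    have h1 := Sm_comb (A := A) (a := fun s => (((stl (M s)).countP (· = (w : List (ℕ+ × ℕ))) : ℕ) : ℤ))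
      (by positivity : 0 ≤ |C| * (n : ℝ)) (fun s => Sm.mono hCn (hD s)) (fun s => by
        rw [Nat.abs_cast]
        have h2 : (stl (M s)).countP (· = (w : List (ℕ+ × ℕ))) ≤ A :=
          List.countP_le_length.trans (Finset.single_le_sum
            (f := fun s => (stl (M s)).length) (fun _ _ => Nat.zero_le _) (Finset.mem_univ s))
        exact_mod_cast h2)
    rw [Ecoef]
    simpa using h1
  have h1 := hn0 n (by omega) (fun w : Λ => Ecoef M D w) hD' ⟨⟨w, hwΛ⟩, hw⟩ p ⟨w, hwΛ⟩
  refine h1.trans_le (le_of_eq ?_)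
  congr 2
  have h2 : ∀ w : Λ, valP n (Finsupp.single [(w : List (ℕ+ × ℕ))] 1) = mz (ar n w) := by
    intro w
    rw [valP, Finsupp.linearCombination_single, one_smul]
    simp
  simp only [h2]
  rw [Finset.sum_coe_sort Λ fun w => ((Ecoef M D w : ℚ) : ℝ) * mz (ar n w)]
  exact (form_eq (by omega) M D hΛm).symm

end Pool.Agent.R473.DW
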